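import Pool.Agent.Dess4.Three
import Mathlib.Algebra.Category.Grp.Injective

/-!
# Points on no quadric
-/

set_option autoImplicit false

noncomputable section

namespace Pool.Agent.Dess4

open Pool.Agent.ZCyc Pool.Agent.Dess
open scoped Classical

variable {k F : Type} [Field k] [Field F] [Algebra k F]

/-- The point `p`, as a divisor. -/
def pt (p : Place k F) : (Unit → Place k F) →₀ ℤ := Finsupp.single (fun _ => p) 1

/-- functionals separate the elements of a torsion free group -/
theorem exists_functional {G : Type*} [AddCommGroup G] (hG : ∀ (n : ℤ) (x : G), n ≠ 0 →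
    n • x = 0 → x = 0) {x : G} (hx : x ≠ 0) : ∃ l : G →+ ℚ, l x ≠ 0 := by
  have hinj : Function.Injective (zmultiplesHom G x) := by
    rw [injective_iff_map_eq_zero]
    intro n hn
    rw [zmultiplesHom_apply] at hn
    by_contra h0
    exact hx (hG n x h0 hn)
  have hdiv : DivisibleBy ℚ ℤ := inferInstance
  obtain ⟨l, hl⟩ := (Module.Baer.of_divisible ℚ).extension_property_addMonoidHom _ hinj
    (Int.castAddHom ℚ)
  refine ⟨l, ?_⟩
  have h1 := DFunLike.congr_fun hl 1
  simp only [AddMonoidHom.comp_apply, zmultiplesHom_apply, one_smul] at h1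
  rw [h1]
  simp

/-- the exterior product of divisors -/
def cross : ((Unit → Place k F) →₀ ℤ) →+ ((Unit → Place k F) →₀ ℤ) →+ Quo k F :=
  Finsupp.liftAddHom fun p => zmultiplesHom _ (Finsupp.liftAddHom fun q =>
    zmultiplesHom (Quo k F) (bt (p ()) (q ())))

theorem cross_single (p q : Unit → Place k F) (m n : ℤ) :
    cross (Finsupp.single p m) (Finsupp.single q n) = (m * n) • bt (p ()) (q ()) := by
  rw [cross, Finsupp.liftAddHom_apply_single, zmultiplesHom_apply, AddMonoidHom.zsmul_apply,
    Finsupp.liftAddHom_apply_single, zmultiplesHom_apply, mul_smul]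

/-- the push-forward to the product of the curve with itself -/
def mapq (Φ : (Unit → Place k F) → Bool → Place k F) : ((Unit → Place k F) →₀ ℤ) →+ Quo k F :=
  (QuotientAddGroup.mk' (torGroup (k := k) fun _ : Bool => F)).comp
    (Finsupp.mapDomain.addMonoidHom Φ)

theorem mapq_single (Φ : (Unit → Place k F) → Bool → Place k F) (p : Unit → Place k F) (n : ℤ) :
    mapq Φ (Finsupp.single p n) = n • QuotientAddGroup.mk (Finsupp.single (Φ p) 1) := by
  change QuotientAddGroup.mk ((Finsupp.single p n).mapDomain Φ) = _
  rw [Finsupp.mapDomain_single, ← QuotientAddGroup.mk_zsmul, Finsupp.smul_single, smul_eq_mul,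
    mul_one]

theorem mapq_ratEq {Φ : (Unit → Place k F) → Bool → Place k F}
    (hΦ : IsMor (L := fun _ : Unit => F) (L' := fun _ : Bool => F) Φ)
    {x : (Unit → Place k F) →₀ ℤ} (hx : x ∈ RatEq fun _ : Unit => F) : mapq Φ x = 0 := by
  change QuotientAddGroup.mk (x.mapDomain Φ) = _
  rw [QuotientAddGroup.eq_zero_iff]
  exact ratEq_le_torGroup (map_mem Φ hΦ hx)

theorem cross_left {x : (Unit → Place k F) →₀ ℤ} (hx : x ∈ RatEq fun _ : Unit => F)
    (y : (Unit → Place k F) →₀ ℤ) : cross x y = 0 := by
  induction y using Finsupp.induction_linear with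
  | zero => rw [map_zero]
  | add a b ha hb => rw [map_add, ha, hb, add_zero]
  | single q n =>
    have h1 : ∀ x : (Unit → Place k F) →₀ ℤ, cross x (Finsupp.single q n) =
        n • mapq (fun v => pair (L := fun _ => F) (v ()) (q ())) x := by
      intro x
      induction x using Finsupp.induction_linear with
      | zero => simp
      | add a b ha hb => rw [map_add, map_add, AddMonoidHom.add_apply, ha, hb, zsmul_add]
      | single p m =>
        rw [cross_single, mapq_single, ← mul_smul, mul_comm m n]
        rfl
    rw [h1, mapq_ratEq, smul_zero]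
    · rintro (_ | _)
      · exact Or.inr ⟨(), AlgHom.id k _, fun v => rfl⟩
      · exact Or.inl ⟨q (), fun v => rfl⟩
    · exact hx

theorem cross_right {x : (Unit → Place k F) →₀ ℤ} (hx : x ∈ RatEq fun _ : Unit => F)
    (y : (Unit → Place k F) →₀ ℤ) : cross y x = 0 := by
  induction y using Finsupp.induction_linear with
  | zero => rw [map_zero, AddMonoidHom.zero_apply]
  | add a b ha hb => rw [map_add, AddMonoidHom.add_apply, ha, hb, add_zero]
  | single q n =>
    have h1 : ∀ x : (Unit → Place k F) →₀ ℤ, cross (Finsupp.single q n) x =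
        n • mapq (fun v => pair (L := fun _ => F) (q ()) (v ())) x := by
      intro x
      induction x using Finsupp.induction_linear with
      | zero => simp
      | add a b ha hb => rw [map_add, map_add, ha, hb, zsmul_add]
      | single p m =>
        rw [cross_single, mapq_single, ← mul_smul]
        rfl
    rw [h1, mapq_ratEq, smul_zero]
    · rintro (_ | _)
      · exact Or.inl ⟨q (), fun v => rfl⟩
      · exact Or.inr ⟨(), AlgHom.id k _, fun v => rfl⟩
    · exact hx

/-- the degree -/
def degq : ((Unit → Place k F) →₀ ℤ) →+ ℚ :=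
  Finsupp.liftAddHom fun _ => Int.castAddHom ℚ

theorem degq_single (p : Unit → Place k F) (n : ℤ) : degq (Finsupp.single p n) = n := by
  rw [degq, Finsupp.liftAddHom_apply_single]
  rfl

theorem degq_ratEq [IsAlgClosed k] [CharZero k] {x : (Unit → Place k F) →₀ ℤ}
    (hx : x ∈ RatEq fun _ : Unit => F) : degq x = 0 := by
  have hle : RatEq (k := k) (fun _ : Unit => F) ≤ (degq (k := k) (F := F)).ker := by
    rw [RatEq, AddSubgroup.closure_le]
    rintro z ⟨F', _, _, φ, g, S, n, hF', hφ, hg, hS, hS', rfl⟩
    rw [SetLike.mem_coe, AddMonoidHom.mem_ker, map_sum]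
    simp only [degq_single]
    have := degree_zero hF' hg S n hS hS'
    exact_mod_cast this
  exact hle hx

/-- the diagonal -/
def diaq : ((Unit → Place k F) →₀ ℤ) →+ Quo k F :=
  mapq fun v => pair (L := fun _ => F) (v ()) (v ())

theorem diaq_ratEq {x : (Unit → Place k F) →₀ ℤ} (hx : x ∈ RatEq fun _ : Unit => F) :
    diaq x = 0 := by
  apply mapq_ratEq _ hx
  rintro (_ | _)
  · exact Or.inr ⟨(), AlgHom.id k _, fun v => rfl⟩
  · exact Or.inr ⟨(), AlgHom.id k _, fun v => rfl⟩

/-- the bilinear form of a functional -/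
def form (l : Quo k F →+ ℚ) : ((Unit → Place k F) →₀ ℤ) →+ ((Unit → Place k F) →₀ ℤ) →+ ℚ :=
  AddMonoidHom.mk' (fun x => AddMonoidHom.mk'
      (fun y => l (cross x y) + l (cross y x) - (l (diaq x) * degq y + degq x * l (diaq y)))
      (by
        intro y y'
        simp only [map_add, AddMonoidHom.add_apply]
        ring))
    (by
      intro x x'
      ext y
      simp only [map_add, AddMonoidHom.add_apply, AddMonoidHom.mk'_apply, AddMonoidHom.comp_apply]
      ring)

theorem form_apply (l : Quo k F →+ ℚ) (x y : (Unit → Place k F) →₀ ℤ) :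
    form l x y =
      l (cross x y) + l (cross y x) - (l (diaq x) * degq y + degq x * l (diaq y)) := rfl

/-- the form on points -/
theorem form_pt (l : Quo k F →+ ℚ) (p q : Place k F) :
    form l (pt p) (pt q) = l (bt p q) + l (bt q p) - (l (bt p p) + l (bt q q)) := by
  rw [form_apply, pt, pt, cross_single, cross_single, degq_single, degq_single, diaq,
    mapq_single, mapq_single]
  change l ((1 * 1 : ℤ) • bt p q) + l ((1 * 1 : ℤ) • bt q p) -
    (l ((1 : ℤ) • bt p p) * ((1 : ℤ) : ℚ) + ((1 : ℤ) : ℚ) * l ((1 : ℤ) • bt q q)) = _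
  rw [mul_one, one_smul, one_smul, one_smul, one_smul]
  push_cast
  ring

/-- the form as a sum over points -/
theorem form_sum (l : Quo k F →+ ℚ) (z y : (Unit → Place k F) →₀ ℤ) :
    (z.sum fun p n => n * form l (pt (p ())) y) = form l z y := by
  induction z using Finsupp.induction_linear with
  | zero => simp
  | add a b ha hb =>
    rw [Finsupp.sum_add_index' (by simp) (by intros; push_cast; ring), ha, hb, map_add,
      AddMonoidHom.add_apply]
  | single p n =>
    rw [Finsupp.sum_single_index (by simp)]
    have h2 : Finsupp.single p n = n • pt (p ()) := by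
      rw [pt, Finsupp.smul_single, smul_eq_mul, mul_one]
    rw [h2, map_zsmul, AddMonoidHom.zsmul_apply, zsmul_eq_mul]

/-- **Points on no quadric.** -/
theorem no_quadric [IsAlgClosed k] [CharZero k] {S : Set (Place k F)} (hS : NoQuadric S)
    {p q p' q' : Place k F} (hp : p ∈ S) (hq : q ∈ S) (hp' : p' ∈ S) (hq' : q' ∈ S) :
    RatTor (fun _ : Bool => F)
      (sym (L := fun _ => F) p q p' q' + sym (L := fun _ => F) p' q' p q) := by
  change _ ∈ torGroup fun _ : Bool => F
  rw [← QuotientAddGroup.eq_zero_iff]
  by_contra h0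
  obtain ⟨l, hl⟩ := exists_functional (fun n x hn hx => quo_tf (k := k) (F := F) hn hx) h0
  have key : ∀ p ∈ S, ∀ q ∈ S, l (bt p q) + l (bt q p) - (l (bt p p) + l (bt q q)) = 0 := by
    intro p hp q hq
    rw [← form_pt]
    refine hS (fun p q => form l (pt p) (pt q)) (fun x y => ?_) (fun x hx y => ?_)
      (fun p _ => ?_) p hp q hq
    · rw [form_apply, form_apply]
      ring
    · rw [form_sum, form_apply, cross_left hx, cross_right hx, diaq_ratEq hx, degq_ratEq hx,
        map_zero]
      ring
    · rw [form_pt]
      ring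
  have h1 := key p hp p' hp'
  have h2 := key p hp q' hq'
  have h3 := key q hq p' hp'
  have h4 := key q hq q' hq'
  apply hl
  rw [QuotientAddGroup.mk_add, sym_eq, sym_eq]
  simp only [map_add, map_sub]
  linarith

end Pool.Agent.Dess4
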