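import Pool.Agent.Dess.Pole

/-!
# The degree of a principal divisor is zero (package D4-DEG)
-/

set_option autoImplicit false

noncomputable section

namespace Pool.Agent.Dess4

open Pool.Agent.ZCyc Pool.Agent.Dess Polynomial Module
open scoped Classical IntermediateField.algebraAdjoinAdjoin

variable {k F : Type} [Field k] [IsAlgClosed k] [CharZero k] [Field F] [Algebra k F]

/-- elements which are algebraic over the constants are constant -/
private lemma deg_transc {f : F} (hf : ∀ c : k, f ≠ algebraMap k F c) : Transcendental k f := by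
  intro h
  have h1 : IsIntegral k f := h.isIntegral
  have h2 : (minpoly k f).degree = 1 :=
    IsAlgClosed.degree_eq_one_of_irreducible k (minpoly.irreducible h1)
  rw [minpoly.degree_eq_one_iff] at h2
  obtain ⟨c, hc⟩ := h2
  exact hf c hc.symm

/-- one condition cuts the dimension down by at most one -/
private lemma deg_step (hF : IsCurve k F) {v : Place k F} {π : F} (hπ : IsUnif v π) (M : ℕ)
    (V : Submodule k F) [FiniteDimensional k V] (hV : ∀ f ∈ V, f * π ^ (M + 1) ∈ v.ring) :
    ∃ V' ≤ V, finrank k V ≤ finrank k V' + 1 ∧ ∀ f ∈ V', f * π ^ M ∈ v.ring := by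
  have hex : ∀ f : V, ∃ c, v.At ((f : F) * π ^ (M + 1)) c := fun f => exists_at hF v (hV f f.2)
  choose l hl using hex
  let L : V →ₗ[k] k :=
    { toFun := l
      map_add' := by
        intro f g
        apply (hl (f + g)).unique
        have := (hl f).add (hl g)
        rwa [← add_mul] at this
      map_smul' := by
        intro c f
        apply (hl (c • f)).unique
        have := (Place.at_const (v := v) c).mul (hl f)
        rw [← mul_assoc, ← Algebra.smul_def] at this
        simpa using this }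
  refine ⟨(LinearMap.ker L).map V.subtype, Submodule.map_subtype_le V _, ?_, ?_⟩
  · rw [Submodule.finrank_map_subtype_eq, ← LinearMap.finrank_range_add_finrank_ker L, add_comm]
    have h1 := Submodule.finrank_le (LinearMap.range L)
    rw [Module.finrank_self] at h1
    omega
  · rintro f ⟨g, hg, rfl⟩
    have h1 : l g = 0 := hg
    have h2 := hl g
    rw [h1, Place.at_zero_iff] at h2
    have h3 := hπ.2.2 _ h2
    have h4 : (g : F) * π ^ (M + 1) / π = (g : F) * π ^ M := by
      rw [pow_succ, ← mul_assoc, mul_div_assoc, div_self hπ.1, mul_one]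
    rw [h4] at h3
    exact h3

/-- a bounded pole at one place is removed by finitely many conditions -/
private lemma deg_steps (hF : IsCurve k F) {v : Place k F} {π : F} (hπ : IsUnif v π) (M : ℕ) :
    ∀ (V : Submodule k F) [FiniteDimensional k V], (∀ f ∈ V, f * π ^ M ∈ v.ring) →
      ∃ V' ≤ V, finrank k V ≤ finrank k V' + M ∧ ∀ f ∈ V', f ∈ v.ring := by
  induction M with
  | zero =>
    intro V _ hV
    refine ⟨V, le_rfl, by omega, fun f hf => ?_⟩
    simpa using hV f hf
  | succ M ih =>
    intro V _ hV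
    obtain ⟨V₁, h1, h2, h3⟩ := deg_step hF hπ M V hV
    haveI : FiniteDimensional k V₁ := Submodule.finiteDimensional_of_le h1
    obtain ⟨V', h4, h5, h6⟩ := ih V₁ h3
    exact ⟨V', h4.trans h1, by omega, h6⟩

/-- bounded poles at finitely many places are removed by finitely many conditions -/
private lemma deg_places (hF : IsCurve k F) {π : Place k F → F} (hπ : ∀ v, IsUnif v (π v))
    (M : Place k F → ℕ) (T : Finset (Place k F)) :
    ∀ (V : Submodule k F) [FiniteDimensional k V],
      (∀ v ∈ T, ∀ f ∈ V, f * π v ^ M v ∈ v.ring) →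
      ∃ V' ≤ V, finrank k V ≤ finrank k V' + ∑ v ∈ T, M v ∧ ∀ f ∈ V', ∀ v ∈ T, f ∈ v.ring := by
  induction T using Finset.induction_on with
  | empty =>
    intro V _ hV
    exact ⟨V, le_rfl, by simp, by simp⟩
  | insert a T ha ih =>
    intro V _ hV
    obtain ⟨V₁, h1, h2, h3⟩ := ih V fun v hv => hV v (Finset.mem_insert_of_mem hv)
    haveI : FiniteDimensional k V₁ := Submodule.finiteDimensional_of_le h1
    obtain ⟨V', h4, h5, h6⟩ := deg_steps hF (hπ a) (M a) V₁
      fun f hf => hV a (Finset.mem_insert_self a T) f (h1 hf)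
    refine ⟨V', h4.trans h1, ?_, ?_⟩
    · rw [Finset.sum_insert ha]
      omega
    · intro f hf v hv
      rcases Finset.mem_insert.1 hv with rfl | hv
      · exact h6 f hf
      · exact h3 f (h4 hf) v hv
/-- the functions `f` for which `f * a` is regular at `v` -/
private def degSub (v : Place k F) (a : F) : Submodule k F where
  carrier := {f | f * a ∈ v.ring}
  add_mem' := by
    intro f g hf hg
    rw [Set.mem_ofPred_eq, add_mul]
    exact add_mem hf hg
  zero_mem' := by
    rw [Set.mem_ofPred_eq, zero_mul]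
    exact zero_mem _
  smul_mem' := by
    intro c f hf
    rw [Set.mem_ofPred_eq, Algebra.smul_def, mul_assoc]
    exact mul_mem (v.const_mem c) hf

/-- powers of a function with a zero kill the poles -/
private lemma deg_clear (hF : IsCurve k F) {v : Place k F} {w π : F} (hπ : IsUnif v π)
    {e : ℕ} (he : 1 ≤ e) (hw : w / π ^ e ∈ v.ring) (f : F) : ∃ c : ℕ, w ^ c * f ∈ v.ring := by
  by_cases hf : f = 0
  · exact ⟨0, by rw [hf, mul_zero]; exact zero_mem _⟩
  obtain ⟨n, hn, -⟩ := exists_ord hF v hπ hf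
  refine ⟨n.natAbs, ?_⟩
  have h1 : w ^ n.natAbs * f = (w / π ^ e) ^ n.natAbs * (f / π ^ n) *
      π ^ ((e * n.natAbs : ℕ) + n : ℤ) := by
    have hπ0 := hπ.1
    rw [zpow_add₀ hπ0, zpow_natCast, div_pow, ← pow_mul]
    field_simp
  rw [h1]
  have h2 : (0 : ℤ) ≤ (e * n.natAbs : ℕ) + n := by
    have : (n.natAbs : ℤ) ≤ (e * n.natAbs : ℕ) := by
      exact_mod_cast Nat.le_mul_of_pos_left _ he
    omega
  obtain ⟨l, hl⟩ := Int.eq_ofNat_of_zero_le h2
  rw [hl, zpow_natCast]
  exact mul_mem (mul_mem (pow_mem hw _) hn) (pow_mem hπ.2.1.mem _)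
private lemma deg_identity {A B C : F} (hA : A ≠ 0) (hB : B ≠ 0) (hC : C ≠ 0) (b P : F) :
    A⁻¹ * b * P = B * (C * b) * (P / (B * A * C)) := by
  field_simp
private lemma deg_arith {N n₀ c E d : ℕ} (hN : N = n₀ * c + 2)
    (h3 : E < n₀) (h4 : (N + 1) * n₀ ≤ d + E * (N + c)) : 2 ≤ d := by
  obtain ⟨q, rfl⟩ := Nat.exists_eq_add_of_le' (show 1 ≤ n₀ by omega)
  have h5 : E * (N + c) ≤ q * (N + c) := Nat.mul_le_mul_right _ (by omega)
  nlinarith

/-- a function which is regular everywhere is constant -/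
private lemma deg_const (hF : IsCurve k F) {f : F} (hf : ∀ v : Place k F, f ∈ v.ring) :
    ∃ a : k, f = algebraMap k F a := by
  by_contra hcon
  push Not at hcon
  have hft : Transcendental k f := deg_transc hcon
  have hf0 : f ≠ 0 := by
    intro h
    exact hcon 0 (by rw [h, map_zero])
  have hwt : Transcendental k f⁻¹ := by
    intro h
    apply hft
    simpa using h.inv
  obtain ⟨P, hP, hP0⟩ := int_of_regular hF hwt (f := f) fun v _ => hf v
  have hp : ∀ i, ∃ p : k[X], aeval f⁻¹ p = (P.coeff i : F) := by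
    intro i
    have h : ((P.coeff i : Algebra.adjoin k {f⁻¹}) : F) ∈ (aeval f⁻¹ : k[X] →ₐ[k] F).range := by
      rw [← Algebra.adjoin_singleton_eq_range_aeval]
      exact (P.coeff i).2
    exact h
  choose p hp using hp
  rw [eval₂_eq_sum_range, Finset.sum_range_succ, hP.coeff_natDegree, map_one, one_mul] at hP0
  set n := P.natDegree with hn
  have h1 : aeval f⁻¹ (∑ i ∈ Finset.range n, p i * X ^ (n - i) + 1) = 0 := by
    rw [map_add, map_sum, map_one]
    have h2 : (f⁻¹) ^ n * (∑ i ∈ Finset.range n,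
        (algebraMap (Algebra.adjoin k {f⁻¹}) F) (P.coeff i) * f ^ i + f ^ n) = 0 := by
      rw [hP0, mul_zero]
    rw [mul_add, Finset.mul_sum, ← mul_pow, inv_mul_cancel₀ hf0, one_pow] at h2
    rw [← h2]
    congr 1
    apply Finset.sum_congr rfl
    intro i hi
    have hi' := Finset.mem_range.1 hi
    rw [_root_.map_mul, hp, map_pow, aeval_X]
    have h3 : (f⁻¹) ^ n = (f⁻¹) ^ (n - i) * (f⁻¹) ^ i := by
      rw [← pow_add]
      congr 1
      omega
    have h4 : (f⁻¹) ^ i * f ^ i = 1 := by
      rw [← mul_pow, inv_mul_cancel₀ hf0, one_pow]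
    rw [h3]
    change (P.coeff i : F) * (f⁻¹) ^ (n - i) =
      (f⁻¹) ^ (n - i) * (f⁻¹) ^ i * ((P.coeff i : F) * f ^ i)
    linear_combination (-((P.coeff i : F) * (f⁻¹) ^ (n - i))) * h4
  have h5 := (transcendental_iff.1 hwt) _ h1
  have h6 := congrArg (fun q => q.coeff 0) h5
  simp only [coeff_add, finsetSum_coeff, coeff_one_zero, coeff_zero] at h6
  rw [Finset.sum_eq_zero, zero_add] at h6
  · exact one_ne_zero h6
  · intro i hi
    have hi' := Finset.mem_range.1 hi
    rw [coeff_mul_X_pow', if_neg (by omega)]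

/-- the sum of the multiplicities of the zeros of `w` is the degree of the extension -/
private lemma deg_finrank (hF : IsCurve k F) {w x : F} (hxw : x = w⁻¹) (hw0 : w ≠ 0)
    (hwt : Transcendental k w) (hxt : Transcendental k x) (S : Finset (Place k F))
    (hmemS : ∀ v, v ∈ S ↔ x ∉ v.ring) {π : Place k F → F} (hπ : ∀ v, IsUnif v (π v))
    (e : Place k F → ℕ) (hepos : ∀ v ∈ S, 1 ≤ e v) (he1 : ∀ v ∈ S, w / π v ^ e v ∈ v.ring)
    (he2 : ∀ v ∈ S, (w / π v ^ e v)⁻¹ ∈ v.ring) :
    ∑ v ∈ S, e v = finrank (IntermediateField.adjoin k {x}) F := by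
  have := fin_adjoin hF hxt
  obtain ⟨s, bb, hbb⟩ := FiniteDimensional.exists_is_basis_integral (Algebra.adjoin k {x})
    (IntermediateField.adjoin k {x}) F
  set n₀ := finrank (IntermediateField.adjoin k {x}) F with hn₀
  have hn₀' : n₀ = Fintype.card s := Module.finrank_eq_card_basis bb
  have hSw : ∀ v ∈ S, v.Vanishes w := by
    intro v hv
    rw [Place.vanishes_iff_or, ← hxw]
    exact Or.inr ((hmemS v).1 hv)
  have hfund := pole_fund hF hxw hw0 hwt hxt S hSw hπ e he1
  -- bound for the poles of the basis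
  have hc : ∃ c : ℕ, ∀ v ∈ S, ∀ i : s, w ^ c * bb i ∈ v.ring := by
    have h1 : ∀ (v : S) (i : s), ∃ c : ℕ, w ^ c * bb i ∈ (v : Place k F).ring :=
      fun v i => deg_clear hF (hπ v) (hepos v v.2) (he1 v v.2) _
    choose c hc using h1
    refine ⟨Finset.univ.sup fun p : S × s => c p.1 p.2, fun v hv i => ?_⟩
    have h2 : c ⟨v, hv⟩ i ≤ Finset.univ.sup fun p : S × s => c p.1 p.2 :=
      Finset.le_sup (f := fun p : S × s => c p.1 p.2) (Finset.mem_univ (⟨v, hv⟩, i))
    obtain ⟨l, hl⟩ := Nat.exists_eq_add_of_le h2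
    rw [hl, pow_add, mul_comm (w ^ _) (w ^ l), mul_assoc]
    exact mul_mem (pow_mem (hSw v hv).mem _) (hc ⟨v, hv⟩ i)
  obtain ⟨c, hc⟩ := hc
  -- the space of functions
  set N := n₀ * c + 2 with hN
  set V : Submodule k F := Submodule.span k
    (Set.range fun p : Fin (N + 1) × s => x ^ (p.1 : ℕ) * bb p.2) with hV
  have hfin : finrank k V = (N + 1) * n₀ := by
    have hli : LinearIndependent k fun p : Fin (N + 1) × s => x ^ (p.1 : ℕ) * bb p.2 := by
      have h1 : LinearIndependent k fun l : Fin (N + 1) =>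
          (IntermediateField.AdjoinSimple.gen k x) ^ (l : ℕ) := by
        rw [Fintype.linearIndependent_iff]
        intro g hg
        have h2 : aeval x (∑ l : Fin (N + 1), C (g l) * X ^ (l : ℕ)) = 0 := by
          have h3 := congrArg (algebraMap (IntermediateField.adjoin k {x}) F) hg
          rw [map_sum, map_zero] at h3
          rw [map_sum, ← h3]
          apply Finset.sum_congr rfl
          intro l _
          rw [_root_.map_mul, aeval_C, map_pow, aeval_X, Algebra.smul_def, _root_.map_mul,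
            map_pow]
          rfl
        have h4 := (transcendental_iff.1 hxt) _ h2
        intro l
        have h5 := congrArg (fun q => q.coeff (l : ℕ)) h4
        simp only [finsetSum_coeff, coeff_C_mul, coeff_X_pow, coeff_zero] at h5
        rw [Finset.sum_eq_single l] at h5
        · simpa using h5
        · intro l' _ hl'
          rw [if_neg (fun h => hl' (Fin.ext h).symm), mul_zero]
        · intro h
          exact absurd (Finset.mem_univ l) h
      exact linearIndependent_smul h1 bb.linearIndependent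
    rw [hV, finrank_span_eq_card hli, Fintype.card_prod, Fintype.card_fin, hn₀']
  have : FiniteDimensional k V := by
    rw [hV]
    exact FiniteDimensional.span_of_finite k (Set.finite_range _)
  obtain ⟨V', h1, h2, h3⟩ := deg_places hF hπ (fun v => e v * (N + c)) S V (by
    intro v hv f hf
    have hle : V ≤ degSub v (π v ^ (e v * (N + c))) := by
      rw [hV, Submodule.span_le]
      rintro _ ⟨⟨l, i⟩, rfl⟩
      change x ^ (l : ℕ) * bb i * π v ^ (e v * (N + c)) ∈ v.ring
      have hl : (l : ℕ) ≤ N := by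
        have := l.2
        omega
      have h4 : x ^ (l : ℕ) * bb i * π v ^ (e v * (N + c)) =
          w ^ (N - l) * (w ^ c * bb i) * ((w / π v ^ e v)⁻¹) ^ (N + c) := by
        have hπ0 := (hπ v).1
        have h5 : w ^ N = w ^ (N - (l : ℕ)) * w ^ (l : ℕ) := by
          rw [← pow_add]
          congr 1
          omega
        have h6 : x ^ (l : ℕ) = (w ^ (l : ℕ))⁻¹ := by rw [hxw]; exact inv_pow w _
        rw [inv_div, div_pow, pow_mul, pow_add w N c, h5, h6]
        exact deg_identity (pow_ne_zero _ hw0) (pow_ne_zero _ hw0) (pow_ne_zero _ hw0) _ _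
      rw [h4]
      exact mul_mem (mul_mem (pow_mem (hSw v hv).mem _) (hc v hv i)) (pow_mem (he2 v hv) _)
    exact hle hf)
  rw [hfin, ← Finset.sum_mul] at h2
  refine le_antisymm hfund ?_
  by_contra hlt
  push Not at hlt
  have hdim : 2 ≤ finrank k V' := deg_arith hN hlt h2
  have hle : V' ≤ LinearMap.range (Algebra.linearMap k F) := by
    intro f hf
    have hreg : ∀ v : Place k F, f ∈ v.ring := by
      intro v
      by_cases hv : v ∈ S
      · exact h3 f hf v hv
      · have hxv : x ∈ v.ring := by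
          by_contra h
          exact hv ((hmemS v).2 h)
        have hle : V ≤ degSub v 1 := by
          rw [hV, Submodule.span_le]
          rintro _ ⟨⟨l, i⟩, rfl⟩
          change x ^ (l : ℕ) * bb i * 1 ∈ v.ring
          rw [mul_one]
          exact mul_mem (pow_mem hxv _) (int_mem v hxv (hbb i))
        have h4 : f * 1 ∈ v.ring := hle (h1 hf)
        rwa [mul_one] at h4
    obtain ⟨a, ha⟩ := deg_const hF hreg
    exact ⟨a, ha.symm⟩
  have h4 := Submodule.finrank_mono hle
  have h5 := LinearMap.finrank_range_le (Algebra.linearMap k F)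
  rw [Module.finrank_self] at h5
  omega

omit [IsAlgClosed k] [CharZero k] in
/-- powers of two uniformizers differ by units -/
private lemma deg_unif {v : Place k F} {π ϖ : F} (hπ : IsUnif v π) (hϖ : IsUnif v ϖ) {g : F}
    {n : ℤ} (h1 : g / ϖ ^ n ∈ v.ring) (h2 : (g / ϖ ^ n)⁻¹ ∈ v.ring) :
    g / π ^ n ∈ v.ring ∧ (g / π ^ n)⁻¹ ∈ v.ring := by
  have hπ0 := hπ.1
  have hϖ0 := hϖ.1
  have h3 := hπ.2.2 ϖ hϖ.2.1
  have h4 := hϖ.2.2 π hπ.2.1
  have h5 : ∀ m : ℤ, (ϖ / π) ^ m ∈ v.ring := by
    intro m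
    obtain ⟨l, rfl | rfl⟩ := Int.eq_nat_or_neg m
    · rw [zpow_natCast]
      exact pow_mem h3 _
    · rw [zpow_neg, zpow_natCast, ← inv_pow, inv_div]
      exact pow_mem h4 _
  have h6 : g / π ^ n = g / ϖ ^ n * (ϖ / π) ^ n := by
    rw [div_zpow]
    have := zpow_ne_zero n hπ0
    have := zpow_ne_zero n hϖ0
    field_simp
  rw [h6]
  refine ⟨mul_mem h1 (h5 n), ?_⟩
  rw [mul_inv, ← zpow_neg]
  exact mul_mem h2 (h5 _)

omit [IsAlgClosed k] [CharZero k] in
private lemma deg_zpow {v : Place k F} {π : F} (hπ : IsUnif v π) {m : ℤ}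
    (h : π ^ m ∈ v.ring) : 0 ≤ m := by
  by_contra hm
  push Not at hm
  obtain ⟨l, hl⟩ := Int.eq_ofNat_of_zero_le (show (0 : ℤ) ≤ -m - 1 by omega)
  have h1 : π⁻¹ = π ^ m * π ^ l := by
    rw [← zpow_natCast, ← zpow_add₀ hπ.1]
    rw [show m + (l : ℤ) = -1 by omega, zpow_neg_one]
  have h2 : π⁻¹ ∈ v.ring := by
    rw [h1]
    exact mul_mem h (pow_mem hπ.2.1.mem _)
  have h3 := (v.vanishes_iff_or π).1 hπ.2.1
  rcases h3 with h3 | h3
  · exact hπ.1 h3
  · exact h3 h2

/-- the order is unique -/
theorem hasOrd_unique (hF : IsCurve k F) {v : Place k F} {g : F} (hg : g ≠ 0) {m n : ℤ}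
    (hm : HasOrd v g m) (hn : HasOrd v g n) : m = n := by
  obtain ⟨π, hπ, h1, h2⟩ := hm
  obtain ⟨ϖ, hϖ, h3, h4⟩ := hn
  obtain ⟨h5, h6⟩ := deg_unif hπ hϖ h3 h4
  have hπ0 := hπ.1
  have h7 : π ^ (n - m) ∈ v.ring := by
    have : π ^ (n - m) = g / π ^ m * (g / π ^ n)⁻¹ := by
      rw [zpow_sub₀ hπ0, inv_div]
      have := zpow_ne_zero n hπ0
      have := zpow_ne_zero m hπ0
      field_simp
    rw [this]
    exact mul_mem h1 h6
  have h8 : π ^ (m - n) ∈ v.ring := by
    have : π ^ (m - n) = g / π ^ n * (g / π ^ m)⁻¹ := by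
      rw [zpow_sub₀ hπ0, inv_div]
      have := zpow_ne_zero n hπ0
      have := zpow_ne_zero m hπ0
      field_simp
    rw [this]
    exact mul_mem h5 h2
  have h9 := deg_zpow hπ h7
  have h10 := deg_zpow hπ h8
  omega

omit [IsAlgClosed k] [CharZero k] in
/-- the order with respect to a given uniformizer -/
private lemma deg_ord {v : Place k F} {π : F} (hπ : IsUnif v π) {g : F} {n : ℤ}
    (h : HasOrd v g n) : g / π ^ n ∈ v.ring ∧ (g / π ^ n)⁻¹ ∈ v.ring := by
  obtain ⟨ϖ, hϖ, h1, h2⟩ := h
  exact deg_unif hπ hϖ h1 h2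

omit [IsAlgClosed k] [CharZero k] in
/-- the order of the inverse -/
private lemma deg_ord_inv {v : Place k F} {g : F} {n : ℤ}
    (h : HasOrd v g n) : HasOrd v g⁻¹ (-n) := by
  obtain ⟨ϖ, hϖ, h1, h2⟩ := h
  have e : g⁻¹ / ϖ ^ (-n) = (g / ϖ ^ n)⁻¹ := by
    rw [zpow_neg, div_inv_eq_mul, inv_div, mul_comm, div_eq_mul_inv]
  refine ⟨ϖ, hϖ, ?_, ?_⟩
  · rw [e]
    exact h2
  · rw [e, inv_inv]
    exact h1

omit [IsAlgClosed k] [CharZero k] in
private lemma deg_sign {v : Place k F} {g : F} (hg : g ≠ 0) {m : ℤ} (h : HasOrd v g m) :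
    g⁻¹ ∈ v.ring ↔ m ≤ 0 := by
  obtain ⟨π, hπ, h1, h2⟩ := h
  have hπ0 := hπ.1
  constructor
  · intro h3
    have h4 : π ^ (-m) ∈ v.ring := by
      have : π ^ (-m) = g / π ^ m * g⁻¹ := by
        rw [zpow_neg]
        have := zpow_ne_zero m hπ0
        field_simp
      rw [this]
      exact mul_mem h1 h3
    have := deg_zpow hπ h4
    omega
  · intro h3
    have h4 : g⁻¹ = (g / π ^ m)⁻¹ * π ^ (-m) := by
      rw [zpow_neg]
      have := zpow_ne_zero m hπ0
      field_simp
    rw [h4]
    obtain ⟨l, hl⟩ := Int.eq_ofNat_of_zero_le (show (0 : ℤ) ≤ -m by omega)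
    rw [hl, zpow_natCast]
    exact mul_mem h2 (pow_mem hπ.2.1.mem _)

omit [IsAlgClosed k] [CharZero k] in
private lemma deg_adjoin (g : F) :
    IntermediateField.adjoin k {g⁻¹} = IntermediateField.adjoin k {g} := by
  apply le_antisymm
  · rw [IntermediateField.adjoin_simple_le_iff]
    exact inv_mem (IntermediateField.mem_adjoin_simple_self k g)
  · rw [IntermediateField.adjoin_simple_le_iff]
    have := inv_mem (IntermediateField.mem_adjoin_simple_self k g⁻¹)
    rwa [inv_inv] at this

/-- the degree of the divisor of zeros -/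
private lemma deg_zeros (hF : IsCurve k F) {g : F} (hg : g ≠ 0) (hgt : Transcendental k g)
    (S : Finset (Place k F)) (n : Place k F → ℤ) (h1 : ∀ v ∈ S, HasOrd v g (n v))
    (h2 : ∀ v ∉ S, HasOrd v g 0) :
    ∑ v ∈ S, (n v).toNat = finrank (IntermediateField.adjoin k {g}) F := by
  choose π hπ using fun v => exists_unif hF v
  have hxt : Transcendental k g⁻¹ := by
    intro h
    apply hgt
    simpa using h.inv
  set Z := S.filter fun v => 0 < n v with hZ
  have hsum : ∑ v ∈ S, (n v).toNat = ∑ v ∈ Z, (n v).toNat := by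
    symm
    apply Finset.sum_subset (Finset.filter_subset _ _)
    intro v hv hv'
    rw [Finset.mem_filter, not_and] at hv'
    have := hv' hv
    omega
  have hmem : ∀ v, v ∈ Z ↔ g⁻¹ ∉ v.ring := by
    intro v
    rw [hZ, Finset.mem_filter]
    constructor
    · rintro ⟨hv, hn⟩
      rw [deg_sign hg (h1 v hv)]
      omega
    · intro h
      by_cases hv : v ∈ S
      · refine ⟨hv, ?_⟩
        rw [deg_sign hg (h1 v hv)] at h
        omega
      · exfalso
        apply h
        rw [deg_sign hg (h2 v hv)]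
  have hpow : ∀ v ∈ Z, π v ^ n v = π v ^ (n v).toNat := by
    intro v hv
    have := (Finset.mem_filter.1 hv).2
    rw [← zpow_natCast]
    congr 1
    omega
  rw [hsum, ← deg_adjoin g]
  refine deg_finrank hF rfl hg hgt hxt Z hmem hπ (fun v => (n v).toNat) ?_ ?_ ?_
  · intro v hv
    have := (Finset.mem_filter.1 hv).2
    omega
  · intro v hv
    have := (deg_ord (hπ v) (h1 v (Finset.mem_filter.1 hv).1)).1
    rwa [hpow v hv] at this
  · intro v hv
    have := (deg_ord (hπ v) (h1 v (Finset.mem_filter.1 hv).1)).2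
    rwa [hpow v hv] at this

/-- the degree of a principal divisor is zero -/
theorem degree_zero (hF : IsCurve k F) {g : F} (hg : g ≠ 0) (S : Finset (Place k F))
    (n : Place k F → ℤ) (h1 : ∀ v ∈ S, HasOrd v g (n v)) (h2 : ∀ v ∉ S, HasOrd v g 0) :
    ∑ v ∈ S, n v = 0 := by
  by_cases hc : ∃ c : k, g = algebraMap k F c
  · obtain ⟨c, rfl⟩ := hc
    apply Finset.sum_eq_zero
    intro v hv
    obtain ⟨π, hπ⟩ := exists_unif hF v
    refine hasOrd_unique hF hg (h1 v hv) ⟨π, hπ, ?_, ?_⟩
    · rw [zpow_zero, div_one]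
      exact v.const_mem c
    · rw [zpow_zero, div_one, ← map_inv₀]
      exact v.const_mem _
  · push Not at hc
    have hgt : Transcendental k g := deg_transc hc
    have hxt : Transcendental k g⁻¹ := by
      intro h
      apply hgt
      simpa using h.inv
    have e1 := deg_zeros hF hg hgt S n h1 h2
    have e2 := deg_zeros hF (inv_ne_zero hg) hxt S (fun v => -n v)
      (fun v hv => deg_ord_inv (h1 v hv)) (fun v hv => by simpa using deg_ord_inv (h2 v hv))
    rw [deg_adjoin, ← e1] at e2
    have e3 : ∀ v, n v = ((n v).toNat : ℤ) - ((-n v).toNat : ℤ) := by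
      intro v
      omega
    rw [Finset.sum_congr rfl fun v _ => e3 v, Finset.sum_sub_distrib]
    have e4 : (∑ v ∈ S, ((-n v).toNat : ℤ)) = ∑ v ∈ S, ((n v).toNat : ℤ) := by
      exact_mod_cast e2
    rw [e4, sub_self]

end Pool.Agent.Dess4
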