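import Pool.Agent.Dess.Defs

/-!
# Functions with four zeros and poles: definitions
-/

set_option autoImplicit false

noncomputable section

namespace Pool.Agent.Dess4

open Pool.Agent.ZCyc Pool.Agent.Dess

section

variable {k F : Type} [Field k] [Field F] [Algebra k F]

/-- The divisor `p - q` on the curve with function field `F`. -/
def dif (p q : Place k F) : (Unit → Place k F) →₀ ℤ :=
  Finsupp.single (fun _ => p) 1 - Finsupp.single (fun _ => q) 1

/-- Any two divisors `p - q`, `p' - q'` with points in the set `S` are linearly dependent in the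
Picard group tensored with the rational numbers. -/
def RankLeOne (S : Set (Place k F)) : Prop :=
  ∀ p ∈ S, ∀ q ∈ S, ∀ p' ∈ S, ∀ q' ∈ S, ∃ m n : ℤ, (m ≠ 0 ∨ n ≠ 0) ∧
    m • dif p q + n • dif p' q' ∈ RatEq fun _ : Unit => F

/-- The divisor `p - q` is torsion in the Picard group. -/
def DifTor (p q : Place k F) : Prop := RatTor (fun _ : Unit => F) (dif p q)

/-- The set `S` of points is contained in no quadric of the Picard group: every symmetric function
`b` of two points with values in `ℚ`, which extends to a bilinear form on the Picard group and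
satisfies `b p p = 0` for all points `p` in `S`, vanishes on `S`. -/
def NoQuadric (S : Set (Place k F)) : Prop :=
  ∀ b : Place k F → Place k F → ℚ, (∀ p q, b p q = b q p) →
    (∀ z ∈ RatEq fun _ : Unit => F, ∀ q, (z.sum fun p n => n * b (p ()) q) = 0) →
      (∀ p ∈ S, b p p = 0) → ∀ p ∈ S, ∀ q ∈ S, b p q = 0

end

/-- `F` is the function field of a smooth projective curve `D`, which is defined over the rational
numbers: `F` is generated over the algebraic numbers by the subfield `F₀`. The points `p`, `q`,
`r`, `s` of `D` are rational and different. The function `h ≠ 0` lies in `F₀`, it has zeros of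
order `N` at `p` and `q`, poles of order `N` at `r` and `s`, and no other zeros and poles, and it is
unramified outside `0`, `1` and `∞`. -/
structure FourPoints {F : Type} [Field F] [Algebra QQ F] (F₀ : Subfield F) (h : F) (N : ℕ)
    (p q r s : Place QQ F) : Prop where
  curve : IsCurve QQ F
  gen : IntermediateField.adjoin QQ (F₀ : Set F) = ⊤
  ne_zero : h ≠ 0
  mem : h ∈ F₀
  rat_p : RationalAt F₀ p
  rat_q : RationalAt F₀ q
  rat_r : RationalAt F₀ r
  rat_s : RationalAt F₀ s
  ne_pq : p ≠ q
  ne_rs : r ≠ s
  pos : 0 < N
  zero_p : HasOrd p h N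
  zero_q : HasOrd q h N
  pole_r : HasOrd r h (-N)
  pole_s : HasOrd s h (-N)
  unit : ∀ v, v ≠ p → v ≠ q → v ≠ r → v ≠ s → HasOrd v h 0
  unram : Unram (k := QQ) h

/-- The conjecture for Belyi functions with four zeros and poles: the zero-cycle `(p - q) × (p - q)` is
torsion in the Chow group of `D × D` for all such data. -/
def FourPointsConj : Prop :=
  ∀ (F : Type) [Field F] [Algebra QQ F] (F₀ : Subfield F) (h : F) (N : ℕ) (p q r s : Place QQ F),
    FourPoints F₀ h N p q r s → RatTor (fun _ : Bool => F) (square p q)

/-- The zero-cycle `w` is the image of a cycle `(p - q) × (p - q)` as in the structure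
`FourPoints` under a morphism. -/
def FourCycle {ι : Type} (L : ι → Type) [∀ i, Field (L i)] [∀ i, Algebra QQ (L i)]
    (w : (∀ i, Place QQ (L i)) →₀ ℤ) : Prop :=
  ∃ (F : Type) (_ : Field F) (_ : Algebra QQ F) (F₀ : Subfield F) (h : F) (N : ℕ)
    (p q r s : Place QQ F) (Φ : (Bool → Place QQ F) → ∀ i, Place QQ (L i)),
    FourPoints F₀ h N p q r s ∧ IsMor Φ ∧ w = (square p q).mapDomain Φ

end Pool.Agent.Dess4
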