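import Pool.Agent.Dess.Ext
import Pool.Agent.Dess4.Defs

/-!
# Quadratic extensions of function fields (package D4-DBL)
-/

set_option autoImplicit false

noncomputable section

namespace Pool.Agent.Dess4

open Pool.Agent.ZCyc Pool.Agent.Dess Polynomial
open scoped Classical

variable {k F : Type} [Field k] [Field F] [Algebra k F]

/-- `M` is the quadratic extension `F(s)`, `s ^ 2 = d`, of the field `F`. -/
structure Dbl {M : Type} [Field M] [Algebra k M] (φ : F →ₐ[k] M) (d : F) (s : M) : Prop where
  sq : s ^ 2 = φ d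
  span : ∀ m : M, ∃ a b : F, m = φ a + φ b * s
  lift : ∀ g : F ≃+* F, g d = d → ∃ g' : M ≃+* M, (∀ f, g' (φ f) = φ (g f)) ∧ g' s = s
  conj : ∃ σ : M ≃ₐ[k] M, (∀ f, σ (φ f) = φ f) ∧ σ s = -s

theorem exists_dbl {d : F} (hd : ∀ s : F, s ^ 2 ≠ d) :
    ∃ (M : Type) (_ : Field M) (_ : Algebra k M) (φ : F →ₐ[k] M) (s : M), Dbl φ d s := by
  have hirr : Irreducible (X ^ 2 - C d : F[X]) :=
    X_pow_sub_C_irreducible_of_prime Nat.prime_two hd
  set P : F[X] := X ^ 2 - C d with hP
  have hmon : P.Monic := by
    rw [hP]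
    exact monic_X_pow_sub_C d (by norm_num)
  have hdeg : P.natDegree = 2 := by
    rw [hP]
    exact natDegree_X_pow_sub_C
  have hev : ∀ {R : Type} [CommRing R] (f : F →+* R) (x : R), P.eval₂ f x = x ^ 2 - f d := by
    intro R _ f x
    rw [hP, eval₂_sub, eval₂_X_pow, eval₂_C]
  clear_value P
  have : Fact (Irreducible P) := ⟨hirr⟩
  set s : AdjoinRoot P := AdjoinRoot.root P with hs
  set φ : F →ₐ[k] AdjoinRoot P := IsScalarTower.toAlgHom k F (AdjoinRoot P) with hφ
  have hφof : ∀ a : F, φ a = AdjoinRoot.of P a := fun a => rfl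
  have hsq : s ^ 2 = φ d := by
    have h1 : P.eval₂ (AdjoinRoot.of P) (AdjoinRoot.root P) = 0 := AdjoinRoot.eval₂_root P
    rw [hev, sub_eq_zero] at h1
    exact h1
  have hspan : ∀ m : AdjoinRoot P, ∃ a b : F, m = φ a + φ b * s := by
    intro m
    induction m using AdjoinRoot.induction_on with
    | ih p =>
      have h1 : p %ₘ P + P * (p /ₘ P) = p := modByMonic_add_div p P
      have h2 : (p %ₘ P).natDegree ≤ 1 := by
        have := natDegree_modByMonic_lt p hmon (by
          intro h
          rw [h] at hdeg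
          simp at hdeg)
        omega
      obtain ⟨b, a, h3⟩ := exists_eq_X_add_C_of_natDegree_le_one h2
      refine ⟨a, b, ?_⟩
      rw [← h1, map_add, map_mul, AdjoinRoot.mk_self, zero_mul, add_zero, h3, map_add, map_mul,
        AdjoinRoot.mk_C, AdjoinRoot.mk_C, AdjoinRoot.mk_X, hφof, hφof, add_comm]
  refine ⟨AdjoinRoot P, inferInstance, inferInstance, φ, s, hsq, hspan, ?_, ?_⟩
  · intro g hg
    have he : P.eval₂ ((AdjoinRoot.of P).comp (g : F →+* F)) s = 0 := by
      rw [hev, RingHom.comp_apply, sub_eq_zero]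
      have : ((g : F →+* F) d) = d := hg
      rw [this]
      exact hsq
    set G : AdjoinRoot P →+* AdjoinRoot P :=
      AdjoinRoot.lift ((AdjoinRoot.of P).comp (g : F →+* F)) s he with hG
    have h1 : ∀ f, G (φ f) = φ (g f) := by
      intro f
      rw [hφof, hG, AdjoinRoot.lift_of]
      rfl
    have h2 : G s = s := AdjoinRoot.lift_root he
    have h3 : Function.Surjective G := by
      intro m
      obtain ⟨a, b, rfl⟩ := hspan m
      refine ⟨φ (g.symm a) + φ (g.symm b) * s, ?_⟩
      rw [map_add, map_mul, h1, h1, h2, RingEquiv.apply_symm_apply, RingEquiv.apply_symm_apply]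
    exact ⟨RingEquiv.ofBijective G ⟨G.injective, h3⟩, h1, h2⟩
  · have he : P.eval₂ (AdjoinRoot.of P) (-s) = 0 := by
      rw [hev, sub_eq_zero, neg_sq]
      exact hsq
    set G : AdjoinRoot P →+* AdjoinRoot P := AdjoinRoot.lift (AdjoinRoot.of P) (-s) he with hG
    have h1 : ∀ f, G (φ f) = φ f := by
      intro f
      rw [hφof, hG, AdjoinRoot.lift_of]
    have h2 : G s = -s := AdjoinRoot.lift_root he
    have h3 : Function.Surjective G := by
      intro m
      obtain ⟨a, b, rfl⟩ := hspan m
      refine ⟨φ a + φ (-b) * s, ?_⟩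
      rw [map_add, map_mul, h1, h1, h2, map_neg]
      ring
    refine ⟨AlgEquiv.ofBijective
      { G with
        commutes' := fun r => by
          show G (algebraMap k (AdjoinRoot P) r) = algebraMap k (AdjoinRoot P) r
          rw [← φ.commutes r, h1] } ⟨G.injective, h3⟩, h1, h2⟩

theorem Dbl.isCurve {M : Type} [Field M] [Algebra k M] {φ : F →ₐ[k] M} {d : F} {s : M}
    (h : Dbl φ d s) (hF : IsCurve k F) : IsCurve k M := by
  obtain ⟨t, ht, hfin⟩ := hF
  refine ⟨φ t, ?_, ?_⟩
  · intro h1
    exact ht ((isAlgebraic_algHom_iff φ φ.injective).mp h1)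
  · set K := IntermediateField.adjoin k {t} with hK
    set K' := IntermediateField.adjoin k {φ t} with hK'
    have hmem : ∀ c ∈ K, φ c ∈ K' := by
      intro c hc
      have h1 : K.map φ = K' := by
        rw [hK, hK', IntermediateField.adjoin_map, Set.image_singleton]
      rw [← h1]
      exact ⟨c, hc, rfl⟩
    obtain ⟨S, hS⟩ := hfin.fg_top
    refine ⟨⟨S.image φ ∪ S.image (fun b => φ b * s), ?_⟩⟩
    set T : Finset M := S.image φ ∪ S.image (fun b => φ b * s) with hT
    have h1 : ∀ a : F, φ a ∈ Submodule.span K' (T : Set M) ∧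
        φ a * s ∈ Submodule.span K' (T : Set M) := by
      intro a
      have ha : a ∈ Submodule.span K (S : Set F) := by rw [hS]; exact Submodule.mem_top
      induction ha using Submodule.span_induction with
      | mem x hx =>
        refine ⟨Submodule.subset_span ?_, Submodule.subset_span ?_⟩
        · rw [hT, Finset.coe_union, Finset.coe_image]
          exact Or.inl ⟨x, hx, rfl⟩
        · rw [hT, Finset.coe_union, Finset.coe_image, Finset.coe_image]
          exact Or.inr ⟨x, hx, rfl⟩
      | zero =>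
        rw [map_zero, zero_mul]
        exact ⟨Submodule.zero_mem _, Submodule.zero_mem _⟩
      | add x y _ _ hx hy =>
        rw [map_add, add_mul]
        exact ⟨Submodule.add_mem _ hx.1 hy.1, Submodule.add_mem _ hx.2 hy.2⟩
      | smul c x _ hx =>
        have e1 : φ (c • x) = (⟨φ c.1, hmem c.1 c.2⟩ : K') • φ x := by
          rw [IntermediateField.smul_def, IntermediateField.smul_def, smul_eq_mul, map_mul]
          rfl
        rw [e1, smul_mul_assoc]
        exact ⟨Submodule.smul_mem _ _ hx.1, Submodule.smul_mem _ _ hx.2⟩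
    rw [eq_top_iff]
    intro m _
    obtain ⟨a, b, rfl⟩ := h.span m
    exact Submodule.add_mem _ (h1 a).1 (h1 b).2

end Pool.Agent.Dess4
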