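import Pool.Agent.Dess4.Two
import Pool.Agent.Dess4.Dbl

/-!
# Belyi functions with two zeros and two poles
-/

set_option autoImplicit false

noncomputable section

namespace Pool.Agent.Dess4

open Pool.Agent.ZCyc Pool.Agent.Dess Polynomial
open scoped Classical

/-- compositions with polynomials -/
theorem bel_comp {F : Type} [Field F] [Algebra QQ F] (hF : IsCurve QQ F) {w : F} {G : QQ[X]}
    (hdeg : 0 < G.natDegree)
    (hS : ∀ (v : Place QQ F) (ξ : QQ), v.At w ξ → ¬ IsUnif v (w - algebraMap QQ F ξ) →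
      eval ξ G = 0 ∨ eval ξ G = 1)
    (hG : ∀ ξ : QQ, eval ξ (derivative G) = 0 → eval ξ G = 0 ∨ eval ξ G = 1) :
    Unram (k := QQ) (aeval w G) := by
  intro v c hv hc0 hc1
  have hw : w ∈ v.ring := by
    by_contra hw
    exact belyi_pole hw hdeg hv.mem
  obtain ⟨ξ, hξ⟩ := exists_at hF v hw
  have hcξ : eval ξ G = c := (hξ.aeval G).unique hv
  have hder : eval ξ (derivative G) ≠ 0 := by
    intro h0
    rcases hG ξ h0 with h1 | h1
    · exact hc0 (hcξ.symm.trans h1)
    · exact hc1 (hcξ.symm.trans h1)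
  have hunif : IsUnif v (w - algebraMap QQ F ξ) := by
    by_contra hn
    rcases hS v ξ hξ hn with h2 | h2
    · exact hc0 (hcξ.symm.trans h2)
    · exact hc1 (hcξ.symm.trans h2)
  have hroot : (G - C c).IsRoot ξ := by
    rw [IsRoot, eval_sub, eval_C, hcξ, sub_self]
  obtain ⟨H, hH⟩ := dvd_iff_isRoot.2 hroot
  have hH' : eval ξ H = eval ξ (derivative G) := by
    have h1 : derivative (G - C c) = derivative ((X - C ξ) * H) := by rw [← hH]
    rw [derivative_sub, derivative_C, sub_zero, derivative_mul, derivative_sub, derivative_X,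
      derivative_C, sub_zero, one_mul] at h1
    rw [h1, eval_add, eval_mul, eval_sub, eval_X, eval_C, sub_self, zero_mul, add_zero]
  have h1 : aeval w G - algebraMap QQ F c = (w - algebraMap QQ F ξ) * aeval w H := by
    have h2 := congrArg (aeval w) hH
    rw [map_sub, map_mul, map_sub, aeval_X, aeval_C, aeval_C] at h2
    exact h2
  rw [h1]
  exact belyi_unif hunif (hξ.aeval H) (by rwa [hH'])

/-- the order of a polynomial in a function with a pole -/
theorem bel_ord {k F : Type} [Field k] [Field F] [Algebra k F] {O : Place k F} {w : F} {N : ℕ}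
    (hN : 0 < N) (hw0 : w ≠ 0) (hw : HasOrd O w (-N)) {p : k[X]} (hp : 0 < p.natDegree) :
    HasOrd O (aeval w p) (-((p.natDegree * N : ℕ) : ℤ)) := by
  have hwO : w ∉ O.ring := two_notMem hw0 hN hw
  obtain ⟨π, hπ, h1, h2⟩ := hw
  have hinv : O.Vanishes w⁻¹ := (O.vanishes_iff_or _).2 (Or.inr (by rwa [inv_inv]))
  have hp0 : p ≠ 0 := by
    rintro rfl
    simp at hp
  have h3 : O.At (aeval w⁻¹ p.reverse) p.leadingCoeff := by
    have h2 := (Place.at_zero_iff.2 hinv).aeval p.reverse
    rwa [← coeff_zero_eq_eval_zero, coeff_zero_reverse] at h2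
  have h4 : aeval w⁻¹ p.reverse * w ^ p.natDegree = aeval w p := by
    let _ : Invertible w := invertibleOfNonzero hw0
    have h5 := eval₂_reverse_mul_pow (algebraMap k F) w p
    rwa [invOf_eq_inv] at h5
  have h5 := (h3.inv (leadingCoeff_ne_zero.2 hp0)).mem
  rw [zpow_neg, zpow_natCast, div_inv_eq_mul] at h1 h2
  have h6 : aeval w p / π ^ (-((p.natDegree * N : ℕ) : ℤ)) =
      aeval w⁻¹ p.reverse * (w * π ^ N) ^ p.natDegree := by
    rw [zpow_neg, zpow_natCast, div_inv_eq_mul, ← h4, mul_pow, ← pow_mul, mul_comm N]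
    ring
  refine ⟨π, hπ, ?_, ?_⟩
  · rw [h6]
    exact mul_mem h3.mem (pow_mem h1 _)
  · rw [h6, mul_inv, ← inv_pow]
    exact mul_mem h5 (pow_mem h2 _)

/-- functions with poles are transcendental -/
theorem bel_transc {F : Type} [Field F] [Algebra QQ F] {O : Place QQ F} {w : F}
    (hw : w ∉ O.ring) : Transcendental QQ w := by
  intro halg
  apply hw
  obtain ⟨c, hc⟩ := minpoly.mem_range_of_degree_eq_one QQ w
    (IsAlgClosed.degree_eq_one_of_irreducible QQ (minpoly.irreducible halg.isIntegral))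
  rw [← hc]
  exact O.const_mem c

/-- a polynomial with rational coefficients in a function over the rational numbers -/
theorem bel_mem {F : Type} [Field F] [Algebra QQ F] {F₀ : Subfield F} {w : F} (hw : w ∈ F₀)
    (g : ℚ[X]) : aeval w (g.map (algebraMap ℚ QQ)) ∈ F₀ := by
  have hch : CharZero F := charZero_of_injective_algebraMap (algebraMap QQ F).injective
  rw [aeval_eq_sum_range]
  apply sum_mem
  intro i _
  rw [Algebra.smul_def, coeff_map, ← RingHom.comp_apply, eq_ratCast]
  exact mul_mem (SubfieldClass.ratCast_mem F₀ _) (pow_mem hw i)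

/-- a function over the rational numbers with exactly two poles, of the same order, unramified
outside `0`, `1`, `∞` -/
theorem exists_b {F : Type} [Field F] [Algebra QQ F] (hF : IsCurve QQ F) {F₀ : Subfield F}
    (gen : IntermediateField.adjoin QQ (F₀ : Set F) = ⊤) {P O : Place QQ F} (hPO : P ≠ O)
    (h : Act F₀ P O) : ∃ u ∈ F₀, Transcendental QQ u ∧ (∀ v, v ≠ P → v ≠ O → u ∈ v.ring) ∧
      (∃ N : ℕ, 0 < N ∧ HasOrd P u (-N) ∧ HasOrd O u (-N)) ∧ Unram (k := QQ) u := by
  obtain ⟨w, hw0, hwt, hw, N, hN, hP, hO⟩ := exists_two hF gen hPO h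
  have hne : w ≠ 0 := by
    rintro rfl
    exact hwt isAlgebraic_zero
  have hwP := two_notMem hne hN hP
  obtain ⟨g, hg1, hg2, hg3, hg4⟩ := belyi_poly (finite_crit hF hwt).toFinset
  have hGdeg : 0 < (g.map (algebraMap ℚ QQ)).natDegree := by
    rw [natDegree_map]
    exact hg1
  have hGev : ∀ ξ : QQ, eval ξ (g.map (algebraMap ℚ QQ)) = aeval ξ g := fun ξ => by
    rw [eval_map, aeval_def]
  refine ⟨_, bel_mem hw0 g, bel_transc (belyi_pole hwP hGdeg), ?_,
    ⟨_, Nat.mul_pos hGdeg hN, bel_ord hN hne hP hGdeg, bel_ord hN hne hO hGdeg⟩,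
    bel_comp hF hGdeg ?_ ?_⟩
  · intro v hvP hvO
    obtain ⟨ξ, hξ⟩ := exists_at hF v (hw v hvP hvO)
    exact (hξ.aeval _).mem
  · intro v ξ hv hn
    rw [hGev]
    apply hg3
    rw [Set.Finite.mem_toFinset]
    exact ⟨v, hv, hn⟩
  · intro ξ hξ
    rw [hGev]
    apply hg4
    rwa [derivative_map, eval_map, ← aeval_def] at hξ

/-- a function over the rational numbers with exactly two poles, of the same order, unramified
outside `0`, `1`, `∞`, for which `1 - 1 / u` is not a square -/
theorem exists_u {F : Type} [Field F] [Algebra QQ F] (hF : IsCurve QQ F) {F₀ : Subfield F}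
    (gen : IntermediateField.adjoin QQ (F₀ : Set F) = ⊤) {P O : Place QQ F} (hPO : P ≠ O)
    (h : Act F₀ P O) : ∃ u ∈ F₀, Transcendental QQ u ∧ (∀ v, v ≠ P → v ≠ O → u ∈ v.ring) ∧
      (∃ N : ℕ, 0 < N ∧ HasOrd P u (-N) ∧ HasOrd O u (-N)) ∧ Unram (k := QQ) u ∧
      ∀ s : F, s ^ 2 ≠ 1 - 1 / u := by
  obtain ⟨b, hb0, hbt, hb, ⟨N, hN, hP, hO⟩, hu⟩ := exists_b hF gen hPO h
  have hne : b ≠ 0 := by
    rintro rfl
    exact hbt isAlgebraic_zero
  have hbP := two_notMem hne hN hP
  set g : ℚ[X] := C (27 / 4) * X ^ 2 * (1 - X) with hg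
  have hgdeg : g.natDegree = 3 := by
    have h1 : g = C (-27 / 4) * X ^ 3 + C (27 / 4) * X ^ 2 + C 0 * X + C 0 := by
      rw [hg, show (-27 / 4 : ℚ) = -(27 / 4) by norm_num, C_neg]
      simp only [map_zero]
      ring
    rw [h1]
    exact natDegree_cubic (by norm_num)
  have hGdeg : 0 < (g.map (algebraMap ℚ QQ)).natDegree := by
    rw [natDegree_map, hgdeg]
    norm_num
  have hG : g.map (algebraMap ℚ QQ) = C (27 / 4) * X ^ 2 * (1 - X) := by
    rw [hg]
    simp
  have hGev : ∀ ξ : QQ, eval ξ (g.map (algebraMap ℚ QQ)) = 27 / 4 * ξ ^ 2 * (1 - ξ) := by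
    intro ξ
    rw [hG]
    simp
  have hGb : aeval b (g.map (algebraMap ℚ QQ)) = algebraMap QQ F (27 / 4) * b ^ 2 * (1 - b) := by
    rw [hG]
    simp
  refine ⟨_, bel_mem hb0 g, bel_transc (belyi_pole hbP hGdeg), ?_,
    ⟨_, Nat.mul_pos hGdeg hN, bel_ord hN hne hP hGdeg, bel_ord hN hne hO hGdeg⟩,
    bel_comp hF hGdeg ?_ ?_, ?_⟩
  · intro v hvP hvO
    obtain ⟨ξ, hξ⟩ := exists_at hF v (hb v hvP hvO)
    exact (hξ.aeval _).mem
  · intro v ξ hv hn
    rw [hGev]
    by_cases h0 : ξ = 0
    · left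
      rw [h0]
      ring
    · by_cases h1 : ξ = 1
      · left
        rw [h1]
        ring
      · exact absurd (hu v ξ hv h0 h1) hn
  · intro ξ hξ
    rw [hGev]
    rw [hG] at hξ
    have h1 : ξ * (2 - 3 * ξ) = 0 := by
      have h2 : eval ξ (derivative (C (27 / 4) * X ^ 2 * (1 - X) : QQ[X])) =
          27 / 4 * (ξ * (2 - 3 * ξ)) := by
        simp
        ring
      rw [h2] at hξ
      rcases mul_eq_zero.1 hξ with h3 | h3
      · norm_num at h3
      · exact h3
    rcases mul_eq_zero.1 h1 with h2 | h2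
    · left
      rw [h2]
      ring
    · right
      have h3 : ξ = 2 / 3 := by linear_combination (-1 / 3) * h2
      rw [h3]
      norm_num
  · intro s hs
    obtain ⟨v, hv⟩ := exists_place hbt (-1 / 3 : QQ)
    have hunif := hu v _ hv (by norm_num) (by norm_num)
    set u := aeval b (g.map (algebraMap ℚ QQ)) with hu'
    have huv : v.At u 1 := by
      have h1 := hv.aeval (g.map (algebraMap ℚ QQ))
      rw [hGev] at h1
      convert h1 using 1
      norm_num
    have hu0 : u ≠ 0 := by
      rintro h0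
      rw [h0] at huv
      exact one_ne_zero (huv.unique (by simpa using Place.at_const (v := v) (0 : QQ)))
    -- the factorization
    have hsq : s ^ 2 = (b - algebraMap QQ F (-1 / 3)) *
        (algebraMap QQ F (-27 / 4) * (b - algebraMap QQ F (2 / 3)) ^ 2 / u) := by
      have h1 : 1 - 1 / u = (u - 1) / u := by field_simp
      rw [hs, h1, ← mul_div_assoc]
      congr 1
      rw [hGb]
      have e1 : algebraMap QQ F (27 / 4) = 27 / 4 := by
        rw [map_div₀, map_ofNat, map_ofNat]
      have e2 : algebraMap QQ F (-27 / 4) = -(27 / 4) := by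
        rw [show (-27 / 4 : QQ) = -(27 / 4) by ring, map_neg, map_div₀, map_ofNat, map_ofNat]
      have e3 : algebraMap QQ F (-1 / 3) = -(1 / 3) := by
        rw [show (-1 / 3 : QQ) = -(1 / 3) by ring, map_neg, map_div₀, map_one, map_ofNat]
      have e4 : algebraMap QQ F (2 / 3) = 2 / 3 := by
        rw [map_div₀, map_ofNat, map_ofNat]
      have hch : CharZero F := charZero_of_injective_algebraMap (algebraMap QQ F).injective
      rw [e1, e2, e3, e4]
      field_simp
      ring
    have hun : IsUnif v (s ^ 2) := by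
      rw [hsq]
      refine belyi_unif hunif (((Place.at_const (-27 / 4)).mul
        ((hv.sub (Place.at_const (2 / 3))).pow 2)).div huv one_ne_zero) ?_
      norm_num
    have h1 : v.Vanishes s := v.vanishes_of_pow hun.2.1
    have h2 := hun.2.2 s h1
    have hs0 : s ≠ 0 := by
      rintro rfl
      exact hun.1 (by ring)
    have h3 : s / s ^ 2 = s⁻¹ := by field_simp
    rw [h3] at h2
    rcases (v.vanishes_iff_or s).1 h1 with h4 | h4
    · exact hs0 h4
    · exact h4 h2

/-- uniformizers in quadratic extensions -/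
theorem bel_dbl {F M : Type} [Field F] [Algebra QQ F] [Field M] [Algebra QQ M]
    (hM : IsCurve QQ M) {φ : F →ₐ[QQ] M} {d : F} {s : M} (h : Dbl φ d s) {v : Place QQ M}
    {w : Place QQ F} (hw : v.ring.comap (φ : F →+* M) = w.ring) {z : QQ} (hz : v.At s z)
    (hz0 : z ≠ 0) {π : F} (hπ : IsUnif w π) : IsUnif v (φ π) := by
  have hmem : ∀ f : F, φ f ∈ v.ring ↔ f ∈ w.ring := by
    intro f
    rw [← hw, ValuationSubring.mem_comap]
    rfl
  have hvan : ∀ f : F, v.Vanishes (φ f) ↔ w.Vanishes f := by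
    intro f
    rw [v.vanishes_iff_or, w.vanishes_iff_or, ← map_inv₀, hmem, map_eq_zero]
  obtain ⟨σ, hσ, hσs⟩ := h.conj
  have hπ0 : φ π ≠ 0 := (map_ne_zero φ).2 hπ.1
  have hch : CharZero M := charZero_of_injective_algebraMap (algebraMap QQ M).injective
  -- functions which vanish at both places
  have key : ∀ g : M, v.Vanishes g → v.Vanishes (σ g) → g / φ π ∈ v.ring := by
    intro g hg hg'
    obtain ⟨a, b, rfl⟩ := h.span g
    rw [map_add, map_mul, hσ, hσ, hσs] at hg'
    have h2 : (2 : M) ≠ 0 := two_ne_zero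
    have h2' : (2 : M)⁻¹ ∈ v.ring := by
      have h3 := v.const_mem (2 : QQ)⁻¹
      rwa [map_inv₀, map_ofNat] at h3
    have ha : w.Vanishes a := by
      rw [← hvan]
      have h3 := (hg.add v hg').mul v h2'
      have h4 : (φ a + φ b * s + (φ a + φ b * -s)) * (2 : M)⁻¹ = φ a := by
        field_simp
        ring
      rwa [h4] at h3
    have hb : w.Vanishes b := by
      rw [← hvan]
      have h3 := ((hg.sub v hg').mul v h2').mul v (hz.inv hz0).mem
      have hs0 : s ≠ 0 := by
        rintro rfl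
        exact hz0 (hz.unique (by simpa using Place.at_const (v := v) (0 : QQ)))
      have h4 : (φ a + φ b * s - (φ a + φ b * -s)) * (2 : M)⁻¹ * s⁻¹ = φ b := by
        field_simp
        ring
      rwa [h4] at h3
    have h5 := (hmem _).2 (hπ.2.2 a ha)
    have h6 := (hmem _).2 (hπ.2.2 b hb)
    have h7 : (φ a + φ b * s) / φ π = φ (a / π) + φ (b / π) * s := by
      rw [map_div₀, map_div₀]
      ring
    rw [h7]
    exact add_mem h5 (mul_mem h6 hz.mem)
  refine ⟨hπ0, (hvan π).2 hπ.2.1, fun g hg => ?_⟩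
  -- the conjugate place
  obtain ⟨ρ, hρ⟩ := exists_unif hM v
  have hzz : v.At (s + algebraMap QQ M z) (z + z) := hz.add (Place.at_const z)
  have hzz0 : z + z ≠ 0 := by
    rw [← two_mul]
    exact mul_ne_zero two_ne_zero hz0
  have hvs : v.Vanishes (σ (s + algebraMap QQ M z)) := by
    rw [map_add, hσs, AlgEquiv.commutes]
    have h1 := Place.Vanishes.neg v hz
    have h2 : -(s - algebraMap QQ M z) = -s + algebraMap QQ M z := by ring
    rwa [h2] at h1
  have hex : ∃ n : ℕ, v.Vanishes (σ (g * (s + algebraMap QQ M z) ^ n)) := by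
    by_cases hg0 : g = 0
    · refine ⟨0, ?_⟩
      rw [hg0, zero_mul, map_zero]
      exact v.vanishes_zero
    · obtain ⟨m, hm, -⟩ := exists_ord hM v hρ ((map_ne_zero σ).2 hg0)
      have h1 := hρ.2.2 _ hvs
      refine ⟨m.natAbs + 1, ?_⟩
      obtain ⟨l, hl, hl'⟩ : ∃ l : ℕ, 0 < l ∧ m + ((m.natAbs + 1 : ℕ) : ℤ) = l := by
        refine ⟨(m + ((m.natAbs + 1 : ℕ) : ℤ)).toNat, ?_, ?_⟩ <;> omega
      have h2 : σ (g * (s + algebraMap QQ M z) ^ (m.natAbs + 1)) =
          (σ g / ρ ^ m) * (σ (s + algebraMap QQ M z) / ρ) ^ (m.natAbs + 1) * ρ ^ l := by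
        have h3 : ρ ^ l = ρ ^ m * ρ ^ (m.natAbs + 1) := by
          rw [← zpow_natCast ρ l, ← hl', zpow_add₀ hρ.1, zpow_natCast]
        rw [h3, map_mul, map_pow, div_pow]
        have h4 := hρ.1
        have h5 : ρ ^ m ≠ 0 := zpow_ne_zero _ hρ.1
        field_simp
      rw [h2]
      exact Place.Vanishes.mul' v (Place.Vanishes.pow v hρ.2.1 hl.ne')
        (mul_mem hm (pow_mem h1 _))
  obtain ⟨n, hn⟩ := hex
  have h1 := key _ (hg.mul v (pow_mem hzz.mem n)) hn
  have h2 := mul_mem h1 (pow_mem (hzz.inv hzz0).mem n)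
  have h3 : s + algebraMap QQ M z ≠ 0 := by
    intro h0
    rw [h0] at hzz
    exact hzz0 (hzz.unique (by simpa using Place.at_const (v := v) (0 : QQ)))
  have h4 : g * (s + algebraMap QQ M z) ^ n / φ π * (s + algebraMap QQ M z)⁻¹ ^ n =
      g / φ π := by
    rw [inv_pow]
    field_simp
  rwa [h4] at h2

theorem unram_sq {F M : Type} [Field F] [Algebra QQ F] [Field M] [Algebra QQ M]
    (hF : IsCurve QQ F) {φ : F →ₐ[QQ] M} {u : F} {s : M} (h : Dbl φ (1 - 1 / u) s)
    (hu : Unram (k := QQ) u) : Unram (k := QQ) (((1 + s) / (1 - s)) ^ 2) := by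
  have hM : IsCurve QQ M := h.isCurve hF
  intro v c hv hc0 hc1
  set η := (1 + s) / (1 - s) with hη
  -- the value of the square root
  have hηv : η ∈ v.ring := by
    by_contra hn
    have h1 : v.Vanishes η⁻¹ := (v.vanishes_iff_or _).2 (Or.inr (by rwa [inv_inv]))
    have h2 := h1.pow v two_ne_zero
    have h3 := h2.mul v hv.mem
    have hη0 : η ≠ 0 := by
      intro h0
      rw [h0] at hn
      exact hn (zero_mem _)
    have h4 : η⁻¹ ^ 2 * η ^ 2 = algebraMap QQ M 1 := by
      rw [← mul_pow, inv_mul_cancel₀ hη0, one_pow, map_one]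
    rw [h4] at h3
    exact v.const_unit one_ne_zero h3
  obtain ⟨e, he⟩ := exists_at hM v hηv
  have hec : e ^ 2 = c := (he.pow 2).unique hv
  have he0 : e ≠ 0 := by
    rintro rfl
    exact hc0 (by rw [← hec]; ring)
  have he1 : e - 1 ≠ 0 := by
    intro h1
    exact hc1 (by rw [← hec]; linear_combination (e + 1) * h1)
  have he2 : e + 1 ≠ 0 := by
    intro h1
    exact hc1 (by rw [← hec]; linear_combination (e - 1) * h1)
  have hch : CharZero M := charZero_of_injective_algebraMap (algebraMap QQ M).injective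
  have h1at : ∀ {L : Type} [Field L] [Algebra QQ L] (v : Place QQ L), v.At (1 : L) 1 := by
    intro L _ _ v
    simpa using Place.at_const (v := v) (1 : QQ)
  -- the value of `s`
  have hη1 : η + 1 ≠ 0 := by
    intro h0
    have h1 := he.add (h1at v)
    rw [h0] at h1
    exact he2 (h1.unique (by simpa using Place.at_const (v := v) (0 : QQ)))
  have hs1 : 1 - s ≠ 0 := by
    intro h0
    rw [hη, h0, div_zero] at he
    exact he0 (he.unique (by simpa using Place.at_const (v := v) (0 : QQ)))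
  have hs : s = (η - 1) / (η + 1) := by
    rw [eq_div_iff hη1, hη]
    field_simp
    ring
  have hsv : v.At s ((e - 1) / (e + 1)) := by
    have h1 := (he.sub (h1at v)).div (he.add (h1at v)) he2
    rwa [← hs] at h1
  set z := (e - 1) / (e + 1) with hz
  have hz0 : z ≠ 0 := div_ne_zero he1 he2
  have hzp : 1 + z ≠ 0 := by
    have h1 : 1 + z = 2 * e / (e + 1) := by
      rw [hz]
      field_simp
      ring
    rw [h1]
    exact div_ne_zero (mul_ne_zero two_ne_zero he0) he2
  have hzm : 1 - z ≠ 0 := by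
    have h1 : 1 - z = 2 / (e + 1) := by
      rw [hz]
      field_simp
      ring
    rw [h1]
    exact div_ne_zero two_ne_zero he2
  have hez : e = (1 + z) / (1 - z) := by
    rw [eq_div_iff hzm, hz]
    field_simp
    ring
  -- the value of `u`
  have hus : (1 - s ^ 2) * φ u = 1 := by
    have h1 := h.sq
    rw [map_sub, map_div₀, map_one] at h1
    have hu0 : φ u ≠ 0 := by
      intro h0
      rw [h0, div_zero, sub_zero] at h1
      have h2 := (hsv.pow 2)
      rw [h1] at h2
      have h3 := (h1at v).unique h2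
      have h4 : (1 - z) * (1 + z) = 0 := by linear_combination h3
      exact mul_ne_zero hzm hzp h4
    rw [h1]
    field_simp
    ring
  have hzz : 1 - z ^ 2 ≠ 0 := by
    have h1 : 1 - z ^ 2 = (1 - z) * (1 + z) := by ring
    rw [h1]
    exact mul_ne_zero hzm hzp
  have hss : 1 - s ^ 2 ≠ 0 := left_ne_zero_of_mul_eq_one hus
  have huv : v.At (φ u) (1 / (1 - z ^ 2)) := by
    have h1 := (h1at v).div ((h1at v).sub (hsv.pow 2)) hzz
    have h2 : (1 : M) / (1 - s ^ 2) = φ u := by
      rw [div_eq_iff hss, mul_comm]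
      exact hus.symm
    rwa [h2] at h1
  obtain ⟨w, hw⟩ := exists_pull hF hM (RingEquiv.refl QQ) (φ : F →+* M)
    (fun c => φ.commutes c) v
  have hmem : ∀ f : F, φ f ∈ v.ring ↔ f ∈ w.ring := by
    intro f
    rw [← hw, ValuationSubring.mem_comap]
    rfl
  have hwu : w.At u (1 / (1 - z ^ 2)) := by
    have h1 : v.Vanishes (φ (u - algebraMap QQ F (1 / (1 - z ^ 2)))) := by
      rw [map_sub, φ.commutes]
      exact huv
    rw [v.vanishes_iff_or, ← map_inv₀, hmem, map_eq_zero] at h1
    exact (w.vanishes_iff_or _).2 h1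
  have hunif := bel_dbl hM h hw hsv hz0 (hu w _ hwu (by
    exact one_div_ne_zero hzz) (by
    intro h1
    rw [div_eq_iff hzz, one_mul] at h1
    have h2 : z ^ 2 = 0 := by linear_combination h1
    exact hz0 (pow_eq_zero_iff two_ne_zero |>.1 h2)))
  rw [map_sub, φ.commutes] at hunif
  -- the unit
  have h1 : η ^ 2 - algebraMap QQ M c = (φ u - algebraMap QQ M (1 / (1 - z ^ 2))) *
      (2 * (1 + s) * (1 + algebraMap QQ M z) * (η + algebraMap QQ M e) /
        (s + algebraMap QQ M z)) := by
    have hszv := hsv.add (Place.at_const (v := v) z)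
    have hsz : s + algebraMap QQ M z ≠ 0 := by
      intro h0
      rw [h0] at hszv
      have h1 : z + z = 0 := (hszv.unique (by simpa using Place.at_const (v := v) (0 : QQ)))
      rw [← two_mul] at h1
      exact mul_ne_zero two_ne_zero hz0 h1
    have hu1 : φ u = 1 / (1 - s ^ 2) := by
      rw [eq_div_iff hss, mul_comm]
      exact hus
    set y := algebraMap QQ M z with hy
    have hyp : 1 + y ≠ 0 := by
      rw [hy, ← map_one (algebraMap QQ M), ← map_add]
      exact (_root_.map_ne_zero _).2 hzp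
    have hym : 1 - y ≠ 0 := by
      rw [hy, ← map_one (algebraMap QQ M), ← map_sub]
      exact (_root_.map_ne_zero _).2 hzm
    have hyy : 1 - y ^ 2 ≠ 0 := by
      have h1 : 1 - y ^ 2 = (1 - y) * (1 + y) := by ring
      rw [h1]
      exact mul_ne_zero hym hyp
    have hc' : algebraMap QQ M c = ((1 + y) / (1 - y)) ^ 2 := by
      rw [← hec, hez, map_pow, map_div₀, map_add, map_sub, map_one]
    have he' : algebraMap QQ M e = (1 + y) / (1 - y) := by
      rw [hez, map_div₀, map_add, map_sub, map_one]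
    have hz' : algebraMap QQ M (1 / (1 - z ^ 2)) = 1 / (1 - y ^ 2) := by
      rw [map_div₀, map_sub, map_one, map_pow]
    have hsp : 1 + s ≠ 0 := by
      intro h0
      apply hss
      have h1 : 1 - s ^ 2 = (1 - s) * (1 + s) := by ring
      rw [h1, h0, mul_zero]
    rw [hu1, hc', he', hz', hη]
    have h2 : 1 / (1 - s ^ 2) - 1 / (1 - y ^ 2) =
        (s - y) * (s + y) / ((1 - s) * (1 + s) * ((1 - y) * (1 + y))) := by
      have e1 : 1 - s ^ 2 = (1 - s) * (1 + s) := by ring
      have e2 : 1 - y ^ 2 = (1 - y) * (1 + y) := by ring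
      rw [e1, e2]
      field_simp
      ring
    rw [h2]
    field_simp
    ring
  rw [h1]
  refine belyi_unif hunif (d := 2 * (1 + z) * (1 + z) * (e + e) / (z + z)) ?_ ?_
  · have h2 : v.At (2 : M) 2 := by
      have h3 := Place.at_const (v := v) (2 : QQ)
      rwa [map_ofNat] at h3
    refine ((((h2.mul ((h1at v).add hsv)).mul ((h1at v).add (Place.at_const z))).mul
      (he.add (Place.at_const e))).div (hsv.add (Place.at_const z)) ?_)
    rw [← two_mul]
    exact mul_ne_zero two_ne_zero hz0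
  · rw [← two_mul, ← two_mul]
    exact div_ne_zero (mul_ne_zero (mul_ne_zero (mul_ne_zero two_ne_zero hzp) hzp)
      (mul_ne_zero two_ne_zero he0)) (mul_ne_zero two_ne_zero hz0)

end Pool.Agent.Dess4
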