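import Pool.Agent.Dess4.Dbl

/-!
# Places of quadratic extensions
-/

set_option autoImplicit false

noncomputable section

namespace Pool.Agent.Dess4

open Pool.Agent.ZCyc Pool.Agent.Dess
open scoped Classical

/-- the Newton iteration for the square root of `d` -/
def newton {F : Type} [Field F] (d : F) : ℕ → F
  | 0 => 1
  | n + 1 => (newton d n ^ 2 + d) / (2 * newton d n)

variable {k F : Type} [Field k] [IsAlgClosed k] [CharZero k] [Field F] [Algebra k F]
variable {M : Type} [Field M] [Algebra k M]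

omit [IsAlgClosed k] in
theorem newton_spec {φ : F →ₐ[k] M} {d : F} {s : M} (hs : s ^ 2 = φ d) (hd : d ≠ 1)
    {V : Place k M} (hV : V.At s 1) (n : ℕ) :
    V.At (φ (newton d n)) 1 ∧ (φ (newton d n) - s) / φ (1 - d) ^ (n + 1) ∈ V.ring := by
  have hch : CharZero M := charZero_of_injective_algebraMap (algebraMap k M).injective
  have h1 : V.At (1 : M) 1 := by
    have := Place.at_const (v := V) (1 : k)
    rwa [map_one] at this
  have hx : φ (1 - d) = (1 - s) * (1 + s) := by
    rw [map_sub, map_one, ← hs]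
    ring
  have hx0 : φ (1 - d) ≠ 0 := by
    rw [Ne, map_eq_zero_iff φ φ.injective, sub_eq_zero]
    exact fun h => hd h.symm
  have hxm : V.Vanishes (φ (1 - d)) := by
    rw [hx, ← Place.at_zero_iff]
    have := (h1.sub hV).mul (h1.add hV)
    simpa using this
  induction n with
  | zero =>
    refine ⟨by simpa [newton] using h1, ?_⟩
    have h2 : (1 - s) ≠ 0 := by
      intro h
      rw [hx, h, zero_mul] at hx0
      exact hx0 rfl
    have h3 : (φ (newton d 0) - s) / φ (1 - d) ^ (0 + 1) = (1 + s)⁻¹ := by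
      have h4 : (1 + s) ≠ 0 := by
        intro h
        rw [hx, h, mul_zero] at hx0
        exact hx0 rfl
      simp only [newton, map_one, zero_add, pow_one]
      rw [hx]
      field_simp
    rw [h3]
    have h5 : V.At (1 + s) (1 + 1) := h1.add hV
    exact (h5.inv (by norm_num)).mem
  | succ n ih =>
    obtain ⟨ih1, ih2⟩ := ih
    set y := φ (newton d n) with hy
    have hy0 : y ≠ 0 := by
      intro h
      rw [h] at ih1
      have := ih1.unique (Place.at_zero_iff.2 V.vanishes_zero)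
      exact one_ne_zero this
    have h2 : V.At (2 * y) (2 * 1) := by
      have h3 : V.At (2 : M) 2 := by
        have := Place.at_const (v := V) (2 : k)
        rwa [map_ofNat] at this
      exact h3.mul ih1
    have h3 : φ (newton d (n + 1)) = (y ^ 2 + s ^ 2) / (2 * y) := by
      rw [newton, map_div₀, map_add, map_pow, map_mul, map_ofNat, hs]
    have h4 : V.At s 1 := hV
    constructor
    · rw [h3]
      have := ((ih1.pow 2).add (h4.pow 2)).div h2 (by norm_num)
      convert this using 1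
      norm_num
    · rw [h3]
      have h5 : ((y ^ 2 + s ^ 2) / (2 * y) - s) / φ (1 - d) ^ (n + 1 + 1) =
          ((y - s) / φ (1 - d) ^ (n + 1)) ^ 2 * φ (1 - d) ^ n * (2 * y)⁻¹ := by
        have h6 : φ (1 - d) ^ (n + 1 + 1) * φ (1 - d) ^ n = (φ (1 - d) ^ (n + 1)) ^ 2 := by
          ring
        have h7 : (2 : M) ≠ 0 := two_ne_zero
        rw [div_pow, ← h6]
        field_simp
        ring
      rw [h5]
      exact mul_mem (mul_mem (pow_mem ih2 2) (pow_mem hxm.mem n)) (h2.inv (by norm_num)).mem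

/-- powers of a function with a zero kill the poles -/
theorem clear_pole (hF : IsCurve k F) {v : Place k F} {x : F} (hx : v.Vanishes x) (b : F) :
    ∃ n : ℕ, b * x ^ n ∈ v.ring := by
  by_cases hb : b = 0
  · exact ⟨0, by rw [hb, zero_mul]; exact zero_mem _⟩
  obtain ⟨π, hπ⟩ := exists_unif hF v
  obtain ⟨n, hn, -⟩ := exists_ord hF v hπ hb
  refine ⟨n.natAbs, ?_⟩
  have h0 := hπ.1
  have h1 : b * x ^ n.natAbs = (b / π ^ n) * (x / π) ^ n.natAbs * π ^ (n + n.natAbs) := by
    rw [zpow_add₀ h0, zpow_natCast, div_pow]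
    field_simp
  rw [h1]
  obtain ⟨l, hl⟩ := Int.eq_ofNat_of_zero_le (show (0 : ℤ) ≤ n + n.natAbs by omega)
  rw [hl, zpow_natCast]
  exact mul_mem (mul_mem hn (pow_mem (hπ.2.2 x hx) _)) (pow_mem hπ.2.1.mem _)

/-- every function on the covering is near `V` approximated by a function on the curve -/
theorem approx (hF : IsCurve k F) {φ : F →ₐ[k] M} {d : F} {s : M} (h : Dbl φ d s) (hd : d ≠ 1)
    {v : Place k F} (hv : v.Vanishes (1 - d)) (g : M) :
    ∃ a : F, ∀ V : Place k M, V.ring.comap (φ : F →+* M) = v.ring → V.At s 1 →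
      (g - φ a) / φ (1 - d) ∈ V.ring := by
  obtain ⟨a, b, rfl⟩ := h.span g
  obtain ⟨n, hn⟩ := clear_pole hF hv b
  refine ⟨a + b * newton d n, fun V hV hs => ?_⟩
  obtain ⟨-, h2⟩ := newton_spec h.sq hd hs n
  have hx0 : φ (1 - d) ≠ 0 := by
    rw [Ne, map_eq_zero_iff φ φ.injective, sub_eq_zero]
    exact fun h => hd h.symm
  have h3 : (φ a + φ b * s - φ (a + b * newton d n)) / φ (1 - d) =
      -(φ (b * (1 - d) ^ n)) * ((φ (newton d n) - s) / φ (1 - d) ^ (n + 1)) := by
    rw [map_add, map_mul, map_mul, map_pow]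
    field_simp
    ring
  rw [h3]
  have h4 : φ (b * (1 - d) ^ n) ∈ V.ring := by
    have : b * (1 - d) ^ n ∈ V.ring.comap (φ : F →+* M) := by
      rw [hV]
      exact hn
    exact ValuationSubring.mem_comap.1 this
  exact mul_mem (neg_mem h4) h2

section Comap

omit [IsAlgClosed k] [CharZero k] in
theorem comap_mem {φ : F →ₐ[k] M} {V : Place k M} {v : Place k F}
    (hV : V.ring.comap (φ : F →+* M) = v.ring) (f : F) : φ f ∈ V.ring ↔ f ∈ v.ring := by
  rw [← hV, ValuationSubring.mem_comap]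
  rfl

omit [IsAlgClosed k] [CharZero k] in
theorem comap_vanishes {φ : F →ₐ[k] M} {V : Place k M} {v : Place k F}
    (hV : V.ring.comap (φ : F →+* M) = v.ring) (f : F) : V.Vanishes (φ f) ↔ v.Vanishes f := by
  rw [V.vanishes_iff_or, v.vanishes_iff_or, ← map_inv₀, comap_mem hV,
    map_eq_zero_iff φ φ.injective]

omit [IsAlgClosed k] [CharZero k] in
theorem comap_at {φ : F →ₐ[k] M} {V : Place k M} {v : Place k F}
    (hV : V.ring.comap (φ : F →+* M) = v.ring) (f : F) (c : k) :
    V.At (φ f) c ↔ v.At f c := by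
  rw [Place.At, Place.At, ← comap_vanishes hV, map_sub, AlgHom.commutes]

end Comap

/-- uniqueness of the place above `v` where `s` has the value `1` -/
theorem above_unique (hF : IsCurve k F) (hM : IsCurve k M) {φ : F →ₐ[k] M} {d : F} {s : M}
    (h : Dbl φ d s) (hd : d ≠ 1) {v : Place k F} (hv : v.Vanishes (1 - d)) {V V' : Place k M}
    (hV : V.ring.comap (φ : F →+* M) = v.ring) (hV' : V'.ring.comap (φ : F →+* M) = v.ring)
    (hs : V.At s 1) (hs' : V'.At s 1) : V = V' := by
  apply place_le hM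
  intro g hg
  obtain ⟨a, ha⟩ := approx hF h hd hv g
  have hx0 : φ (1 - d) ≠ 0 := by
    rw [Ne, map_eq_zero_iff φ φ.injective, sub_eq_zero]
    exact fun h => hd h.symm
  have key : ∀ W : Place k M, W.ring.comap (φ : F →+* M) = v.ring → W.At s 1 →
      g - φ a ∈ W.ring := by
    intro W hW hWs
    have h1 := mul_mem (ha W hW hWs) ((comap_mem hW _).2 hv.mem)
    rwa [div_mul_cancel₀ _ hx0] at h1
  have h1 : φ a ∈ V.ring := by
    have := sub_mem hg (key V hV hs)
    rwa [sub_sub_cancel] at this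
  have h2 : φ a ∈ V'.ring := (comap_mem hV' a).2 ((comap_mem hV a).1 h1)
  have := add_mem (key V' hV' hs') h2
  rwa [sub_add_cancel] at this

/-- the covering is unramified at the place above `v` where `s` has the value `1` -/
theorem above_unif (hF : IsCurve k F) {φ : F →ₐ[k] M} {d : F} {s : M}
    (h : Dbl φ d s) (hd : d ≠ 1) {v : Place k F} (hv : v.Vanishes (1 - d)) {V : Place k M}
    (hV : V.ring.comap (φ : F →+* M) = v.ring) (hs : V.At s 1) {π : F} (hπ : IsUnif v π) :
    IsUnif V (φ π) := by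
  refine ⟨(map_ne_zero_iff φ φ.injective).2 hπ.1, (comap_vanishes hV π).2 hπ.2.1, fun g hg => ?_⟩
  obtain ⟨a, ha⟩ := approx hF h hd hv g
  have hx0 : φ (1 - d) ≠ 0 := by
    rw [Ne, map_eq_zero_iff φ φ.injective, sub_eq_zero]
    exact fun h => hd h.symm
  have hπ0 : φ π ≠ 0 := (map_ne_zero_iff φ φ.injective).2 hπ.1
  have h1 := ha V hV hs
  have h2 : V.Vanishes (g - φ a) := by
    have := Place.Vanishes.mul V ((comap_vanishes hV _).2 hv) h1
    rwa [mul_div_cancel₀ _ hx0] at this
  have h3 : V.Vanishes (φ a) := by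
    have := hg.sub V h2
    rwa [sub_sub_cancel] at this
  have h4 : φ (a / π) ∈ V.ring := (comap_mem hV _).2 (hπ.2.2 a ((comap_vanishes hV a).1 h3))
  have h5 : (g - φ a) / φ π ∈ V.ring := by
    have h6 : φ ((1 - d) / π) ∈ V.ring := (comap_mem hV _).2 (hπ.2.2 _ hv)
    have h7 := mul_mem h1 h6
    rw [map_div₀] at h7
    convert h7 using 1
    field_simp
  have := add_mem h5 h4
  rw [map_div₀] at this
  convert this using 1
  field_simp
  ring

omit [IsAlgClosed k] [CharZero k] in
/-- the same with `-s` -/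
theorem Dbl.neg {φ : F →ₐ[k] M} {d : F} {s : M} (h : Dbl φ d s) : Dbl φ d (-s) where
  sq := by rw [neg_sq, h.sq]
  span := by
    intro m
    obtain ⟨a, b, hab⟩ := h.span m
    refine ⟨a, -b, ?_⟩
    rw [hab, map_neg]
    ring
  lift := by
    intro g hg
    obtain ⟨g', h1, h2⟩ := h.lift g hg
    exact ⟨g', h1, by rw [map_neg, h2]⟩
  conj := by
    obtain ⟨σ, h1, h2⟩ := h.conj
    exact ⟨σ, h1, by rw [map_neg, h2]⟩

omit [IsAlgClosed k] [CharZero k] in
theorem mem_of_sq {V : Place k M} {s : M} (h : s ^ 2 ∈ V.ring) : s ∈ V.ring := by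
  by_contra hs
  have h1 : V.Vanishes s⁻¹ := by
    rw [V.vanishes_iff_or, inv_inv]
    exact Or.inr hs
  have h2 : V.Vanishes (s⁻¹ ^ 2 * s ^ 2) := (h1.pow V two_ne_zero).mul V h
  have hs0 : s ≠ 0 := by
    rintro rfl
    exact hs (zero_mem _)
  have h3 : s⁻¹ ^ 2 * s ^ 2 = algebraMap k M 1 := by
    rw [map_one]
    field_simp
  rw [h3] at h2
  exact V.const_unit one_ne_zero h2

/-- the possible values of `s` -/
theorem above_value (hM : IsCurve k M) {φ : F →ₐ[k] M} {d : F} {s : M}
    (hs : s ^ 2 = φ d) {v : Place k F} (hv : v.Vanishes (1 - d)) {V : Place k M}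
    (hV : V.ring.comap (φ : F →+* M) = v.ring) : V.At s 1 ∨ V.At (-s) 1 := by
  have h1 : V.At (φ d) 1 := by
    rw [comap_at hV, Place.At]
    have := hv.neg v
    rw [map_one]
    simpa using this
  have h2 : s ∈ V.ring := by
    apply mem_of_sq
    rw [hs]
    exact h1.mem
  obtain ⟨c, hc⟩ := exists_at hM V h2
  have h3 : c ^ 2 = 1 := by
    apply (hc.pow 2).unique
    rw [hs]
    exact h1
  rcases (sq_eq_sq_iff_eq_or_eq_neg.1 (by rw [h3, one_pow] : c ^ 2 = 1 ^ 2)) with h | h
  · left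
    rwa [h] at hc
  · right
    rw [h] at hc
    have := hc.neg
    rwa [neg_neg] at this

/-- existence of the place above `v` where `s` has the value `1` -/
theorem above_exists (hF : IsCurve k F) (hM : IsCurve k M) {φ : F →ₐ[k] M} {d : F} {s : M}
    (h : Dbl φ d s) {v : Place k F} (hv : v.Vanishes (1 - d)) :
    ∃ V : Place k M, V.ring.comap (φ : F →+* M) = v.ring ∧ V.At s 1 := by
  obtain ⟨V, hV⟩ := exists_ext hF hM φ v
  rcases above_value hM h.sq hv hV with h1 | h1
  · exact ⟨V, hV, h1⟩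
  · obtain ⟨σ, hσ, hσs⟩ := h.conj
    have hσs' : σ.symm s = -s := by
      rw [AlgEquiv.symm_apply_eq, map_neg, hσs, neg_neg]
    have hσ' : ∀ f, σ.symm (φ f) = φ f := by
      intro f
      rw [AlgEquiv.symm_apply_eq, hσ]
    refine ⟨V.map σ, ?_, ?_⟩
    · rw [← hV]
      ext f
      rw [ValuationSubring.mem_comap, ValuationSubring.mem_comap, Place.mem_map]
      change σ.symm (φ f) ∈ _ ↔ φ f ∈ _
      rw [hσ']
    · rw [Place.at_map, hσs']
      exact h1

/-- an automorphism fixes the place above `v` where `s` has the value `1` -/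
theorem above_fixed (hF : IsCurve k F) (hM : IsCurve k M) {φ : F →ₐ[k] M} {d : F} {s : M}
    (h : Dbl φ d s) (hd : d ≠ 1) {v : Place k F} (hv : v.Vanishes (1 - d)) {V : Place k M}
    (hV : V.ring.comap (φ : F →+* M) = v.ring) (hs : V.At s 1) (τ : k ≃+* k) (g : F ≃+* F)
    (g' : M ≃+* M) (hg : ∀ c, g (algebraMap k F c) = algebraMap k F (τ c))
    (hgg : ∀ f, g' (φ f) = φ (g f)) (hgs : g' s = s)
    (hgv : v.ring.comap (g : F →+* F) = v.ring) :
    V.ring.comap (g' : M →+* M) = V.ring := by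
  have hg' : ∀ c, (g' : M →+* M) (algebraMap k M c) = algebraMap k M (τ c) := by
    intro c
    rw [← φ.commutes]
    change g' (φ (algebraMap k F c)) = _
    rw [hgg, hg, φ.commutes]
  obtain ⟨V', hV'⟩ := exists_pull hM hM τ (g' : M →+* M) hg' V
  rw [hV']
  have hm : ∀ x, x ∈ V'.ring ↔ g' x ∈ V.ring := by
    intro x
    rw [← hV', ValuationSubring.mem_comap]
    rfl
  have hm' : ∀ x, V'.Vanishes x ↔ V.Vanishes (g' x) := by
    intro x
    rw [V'.vanishes_iff_or, V.vanishes_iff_or, ← map_inv₀, hm, map_eq_zero_iff g' g'.injective]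
  have h1 : V'.ring.comap (φ : F →+* M) = v.ring := by
    ext f
    rw [ValuationSubring.mem_comap]
    change φ f ∈ V'.ring ↔ _
    rw [hm, hgg, comap_mem hV]
    have h2 : f ∈ v.ring.comap (g : F →+* F) ↔ g f ∈ v.ring := ValuationSubring.mem_comap
    rw [← h2, hgv]
  have h2 : V'.At s 1 := by
    rw [Place.At, hm', map_one, map_sub, hgs, map_one]
    rw [Place.At, map_one] at hs
    exact hs
  rw [above_unique hF hM h hd hv h1 hV h2 hs]

section Orders

/-- the order of `h = (1 + s) / (1 - s)` at the point above a pole of `u`, with `s = 1` -/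
theorem ord_pole (hF : IsCurve k F) {φ : F →ₐ[k] M} {d : F} {s : M}
    (h : Dbl φ d s) (hd : d ≠ 1) {v : Place k F} (hv : v.Vanishes (1 - d)) {V : Place k M}
    (hV : V.ring.comap (φ : F →+* M) = v.ring) (hs : V.At s 1) {N : ℤ}
    (hN : HasOrd v (1 - d) N) : HasOrd V ((1 + s) / (1 - s)) (-N) := by
  obtain ⟨π, hπ, h1, h2⟩ := hN
  refine ⟨φ π, above_unif hF h hd hv hV hs hπ, ?_⟩
  have hch : CharZero M := charZero_of_injective_algebraMap (algebraMap k M).injective
  have hx : φ (1 - d) = (1 - s) * (1 + s) := by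
    rw [map_sub, map_one, ← h.sq]
    ring
  have hx0 : φ (1 - d) ≠ 0 := by
    rw [Ne, map_eq_zero_iff φ φ.injective, sub_eq_zero]
    exact fun h => hd h.symm
  have hs1 : 1 - s ≠ 0 := by
    intro h
    rw [hx, h, zero_mul] at hx0
    exact hx0 rfl
  have hs2 : 1 + s ≠ 0 := by
    intro h
    rw [hx, h, mul_zero] at hx0
    exact hx0 rfl
  have hπ0 : φ π ≠ 0 := (map_ne_zero_iff φ φ.injective).2 hπ.1
  have h3 : V.At (1 + s) (1 + 1) := by
    have := Place.at_const (v := V) (1 : k)
    rw [map_one] at this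
    exact this.add hs
  have e : (1 + s) / (1 - s) / φ π ^ (-N) = (1 + s) ^ 2 * (φ ((1 - d) / π ^ N))⁻¹ := by
    rw [map_div₀, hx, map_zpow₀, zpow_neg]
    have := zpow_ne_zero N hπ0
    field_simp
  rw [e]
  constructor
  · refine mul_mem (pow_mem h3.mem 2) ?_
    rw [← map_inv₀, comap_mem hV]
    exact h2
  · rw [mul_inv, inv_inv]
    refine mul_mem ?_ ((comap_mem hV _).2 h1)
    have := ((h3.pow 2).inv (by norm_num)).mem
    exact this

omit [IsAlgClosed k] [CharZero k] in
/-- the order of the inverse -/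
theorem hasOrd_inv {v : Place k F} {g : F} {n : ℤ} (h : HasOrd v g n) : HasOrd v g⁻¹ (-n) := by
  obtain ⟨π, hπ, h1, h2⟩ := h
  refine ⟨π, hπ, ?_, ?_⟩
  · have e : g⁻¹ / π ^ (-n) = (g / π ^ n)⁻¹ := by
      rw [zpow_neg, inv_div, div_inv_eq_mul, div_eq_mul_inv, mul_comm]
    rw [e]
    exact h2
  · have e : (g⁻¹ / π ^ (-n))⁻¹ = g / π ^ n := by
      rw [zpow_neg, div_inv_eq_mul, mul_inv, inv_inv, div_eq_mul_inv]
    rw [e]
    exact h1

/-- the order of `h = (1 + s) / (1 - s)` at the point above a pole of `u`, with `s = -1` -/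
theorem ord_zero (hF : IsCurve k F) {φ : F →ₐ[k] M} {d : F} {s : M}
    (h : Dbl φ d s) (hd : d ≠ 1) {v : Place k F} (hv : v.Vanishes (1 - d)) {V : Place k M}
    (hV : V.ring.comap (φ : F →+* M) = v.ring) (hs : V.At (-s) 1) {N : ℤ}
    (hN : HasOrd v (1 - d) N) : HasOrd V ((1 + s) / (1 - s)) N := by
  have h1 := hasOrd_inv (ord_pole hF h.neg hd hv hV hs hN)
  rw [neg_neg] at h1
  convert h1 using 1
  rw [inv_div, sub_neg_eq_add, ← sub_eq_add_neg]

/-- no zeros and poles of `h` at the other points -/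
theorem ord_unit (hM : IsCurve k M) {φ : F →ₐ[k] M} {d u : F} {s : M} {t : k} (ht : t ≠ 0)
    (hu0 : u ≠ 0) (hdu : d = 1 - algebraMap k F t / u) (hs : s ^ 2 = φ d)
    {v : Place k F} (hF : IsCurve k F) (hv : u ∈ v.ring) {V : Place k M}
    (hV : V.ring.comap (φ : F →+* M) = v.ring) : HasOrd V ((1 + s) / (1 - s)) 0 := by
  obtain ⟨π, hπ⟩ := exists_unif hM V
  refine ⟨π, hπ, ?_⟩
  rw [zpow_zero, div_one]
  have hone : V.At (1 : M) 1 := by
    have := Place.at_const (v := V) (1 : k)
    rwa [map_one] at this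
  suffices h : ∃ c : k, c ≠ 0 ∧ V.At ((1 + s) / (1 - s)) c by
    obtain ⟨c, hc, h⟩ := h
    exact ⟨h.mem, (h.inv hc).mem⟩
  obtain ⟨α, hα⟩ := exists_at hF v hv
  by_cases hα0 : α = 0
  · -- `s` has a pole
    subst hα0
    have h1 : v.At (u / (u - algebraMap k F t)) (0 / (0 - t)) :=
      hα.div (hα.sub (Place.at_const t)) (by simpa using ht)
    have h2 : (s⁻¹) ^ 2 = φ (u / (u - algebraMap k F t)) := by
      rw [inv_pow, hs, hdu, ← map_inv₀]
      congr 1
      rw [one_sub_div hu0, inv_div]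
    have h3 : V.Vanishes (s⁻¹) := by
      apply V.vanishes_of_pow (n := 2)
      rw [h2, ← Place.at_zero_iff, comap_at hV]
      simpa using h1
    have h4 : V.At (s⁻¹) 0 := Place.at_zero_iff.2 h3
    have hs0 : s ≠ 0 := by
      rintro rfl
      rw [zero_pow two_ne_zero] at hs
      have h5 : d = 0 := by
        rw [eq_comm, map_eq_zero_iff φ φ.injective] at hs
        exact hs
      rw [hdu, sub_eq_zero, eq_div_iff hu0, one_mul] at h5
      rw [h5] at hα
      exact ht ((Place.at_const t).unique hα)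
    refine ⟨(0 + 1) / (0 - 1), by norm_num, ?_⟩
    have h5 := (h4.add hone).div (h4.sub hone) (by norm_num)
    convert h5 using 1
    field_simp
  · -- `s` has a value different from `1` and `-1`
    have h1 : v.At d (1 - t / α) := by
      rw [hdu]
      have := (Place.at_const (v := v) (1 : k)).sub ((Place.at_const t).div hα hα0)
      rwa [map_one] at this
    have h2 : V.At (s ^ 2) (1 - t / α) := by
      rw [hs, comap_at hV]
      exact h1
    obtain ⟨c, hc⟩ := exists_at hM V (mem_of_sq h2.mem)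
    have h3 : c ^ 2 = 1 - t / α := (hc.pow 2).unique h2
    have h4 : (1 - c) * (1 + c) = t / α := by
      linear_combination -h3
    have h5 : t / α ≠ 0 := div_ne_zero ht hα0
    rw [← h4] at h5
    refine ⟨(1 + c) / (1 - c), div_ne_zero (right_ne_zero_of_mul h5) (left_ne_zero_of_mul h5), ?_⟩
    exact (hone.add hc).div (hone.sub hc) (left_ne_zero_of_mul h5)

end Orders

end Pool.Agent.Dess4
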