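import Pool.Agent.Dess4.Local
import Pool.Agent.Dess4.Bel
import Pool.Agent.Dess.Final

/-!
# Two rational points lie below two of the zeros of a function with four zeros and poles
-/

set_option autoImplicit false

noncomputable section

namespace Pool.Agent.Dess4

open Pool.Agent.ZCyc Pool.Agent.Dess
open scoped Classical

/-- the order of the square -/
theorem hasOrd_sq {k F : Type} [Field k] [Field F] [Algebra k F] {v : Place k F} {g : F} {n : ℤ}
    (h : HasOrd v g n) : HasOrd v (g ^ 2) (2 * n) := by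
  obtain ⟨π, hπ, h1, h2⟩ := h
  have e : g ^ 2 / π ^ (2 * n) = (g / π ^ n) ^ 2 := by
    rw [two_mul, zpow_add₀ hπ.1, div_pow]
    ring
  refine ⟨π, hπ, ?_, ?_⟩
  · rw [e]
    exact pow_mem h1 _
  · rw [e, ← inv_pow]
    exact pow_mem h2 _

theorem four_points {F : Type} [Field F] [Algebra QQ F] (hF : IsCurve QQ F) {F₀ : Subfield F}
    (gen : IntermediateField.adjoin QQ (F₀ : Set F) = ⊤) {P O : Place QQ F} (hPO : P ≠ O)
    (hact : Act F₀ P O) :
    ∃ (M : Type) (_ : Field M) (_ : Algebra QQ M) (φ : F →ₐ[QQ] M) (M₀ : Subfield M) (h : M)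
      (N : ℕ) (p q r s : Place QQ M), FourPoints M₀ h N p q r s ∧
        p.ring.comap (φ : F →+* M) = P.ring ∧ q.ring.comap (φ : F →+* M) = O.ring := by
  obtain ⟨u, hu₀, hut, hureg, ⟨N, hN, hNP, hNO⟩, hun, ht⟩ := exists_u hF gen hPO hact
  obtain ⟨t, ht1⟩ : ∃ t : ℚ, t = 1 := ⟨1, rfl⟩
  have ht0 : t ≠ 0 := by
    rw [ht1]
    exact one_ne_zero
  obtain ⟨d, hd⟩ : ∃ d : F, d = 1 - algebraMap QQ F t / u := ⟨_, rfl⟩
  have hd' : 1 - 1 / u = d := by
    rw [hd, ht1, Rat.cast_one, map_one]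
  rw [hd'] at ht
  obtain ⟨M, _, _, φ, s, h⟩ := exists_dbl (k := QQ) ht
  have hM := h.isCurve hF
  have ht0' : (t : QQ) ≠ 0 := by exact_mod_cast ht0
  have hu0 : u ≠ 0 := by
    rintro rfl
    exact hut isAlgebraic_zero
  have htF : algebraMap QQ F t ≠ 0 := (map_ne_zero _).2 ht0'
  have h1d : 1 - d = algebraMap QQ F t / u := by
    rw [hd]
    ring
  have hd1 : d ≠ 1 := by
    intro h1
    rw [h1, sub_self] at h1d
    exact div_ne_zero htF hu0 h1d.symm
  -- the order of `1 - d` at the poles of `u`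
  have hord : ∀ v : Place QQ F, HasOrd v u (-N) → HasOrd v (1 - d) N ∧ v.Vanishes (1 - d) := by
    rintro v ⟨π, hπ, h1, h2⟩
    have hπ0 := hπ.1
    have e : (1 - d) / π ^ (N : ℤ) = algebraMap QQ F t * (u / π ^ (-N : ℤ))⁻¹ := by
      rw [h1d, zpow_neg]
      have := zpow_ne_zero (N : ℤ) hπ0
      field_simp
    have h3 : (1 - d) / π ^ (N : ℤ) ∈ v.ring := by
      rw [e]
      exact mul_mem (v.const_mem _) h2
    refine ⟨⟨π, hπ, h3, ?_⟩, ?_⟩
    · rw [e, mul_inv, inv_inv, ← map_inv₀]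
      exact mul_mem (v.const_mem _) h1
    · have h4 : 1 - d = π ^ N * ((1 - d) / π ^ (N : ℤ)) := by
        rw [zpow_natCast]
        field_simp
      rw [h4]
      exact (hπ.2.1.pow v hN.ne').mul v h3
  obtain ⟨hoP, hvP⟩ := hord P hNP
  obtain ⟨hoO, hvO⟩ := hord O hNO
  obtain ⟨r, hr, hrs⟩ := above_exists hF hM h hvP
  obtain ⟨w, hw, hws⟩ := above_exists hF hM h hvO
  obtain ⟨p, hp, hps⟩ := above_exists hF hM h.neg hvP
  obtain ⟨q, hq, hqs⟩ := above_exists hF hM h.neg hvO
  let M₀ : Subfield M := Subfield.closure (φ '' (F₀ : Set F) ∪ {s})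
  have hsM₀ : s ∈ M₀ := Subfield.subset_closure (Or.inr rfl)
  have hφM₀ : ∀ f ∈ F₀, φ f ∈ M₀ := fun f hf => Subfield.subset_closure (Or.inl ⟨f, hf, rfl⟩)
  have hdF₀ : d ∈ F₀ := by
    rw [hd]
    refine sub_mem (one_mem _) (div_mem ?_ hu₀)
    rw [map_ratCast]
    exact SubfieldClass.ratCast_mem F₀ _
  -- the Galois action
  have hgal : ∀ τ : Gam, ∃ g : M ≃+* M, (∀ c, g (algebraMap QQ M c) = algebraMap QQ M (τ c)) ∧
      (∀ f ∈ M₀, g f = f) ∧ (p.ring.comap (g : M →+* M) = p.ring ∧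
        q.ring.comap (g : M →+* M) = q.ring) ∧ r.ring.comap (g : M →+* M) = r.ring ∧
        w.ring.comap (g : M →+* M) = w.ring := by
    intro τ
    obtain ⟨g, hg1, hg2, hg3, hg4⟩ := hact τ
    obtain ⟨g', hg', hgs⟩ := h.lift g (hg2 d hdF₀)
    have hgs' : g' (-s) = -s := by rw [map_neg, hgs]
    refine ⟨g', ?_, ?_, ⟨?_, ?_⟩, ?_, ?_⟩
    · intro c
      rw [← φ.commutes, hg', hg1, φ.commutes]
    · have hle : M₀ ≤ RingHom.eqLocusField (g' : M →+* M) (RingHom.id M) := by
        rw [Subfield.closure_le]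
        rintro x (⟨f, hf, rfl⟩ | rfl)
        · change g' (φ f) = φ f
          rw [hg', hg2 f hf]
        · exact hgs
      intro f hf
      exact hle hf
    · exact above_fixed hF hM h.neg hd1 hvP hp hps (τ : QQ ≃+* QQ) g g' hg1 hg' hgs' hg3
    · exact above_fixed hF hM h.neg hd1 hvO hq hqs (τ : QQ ≃+* QQ) g g' hg1 hg' hgs' hg4
    · exact above_fixed hF hM h hd1 hvP hr hrs (τ : QQ ≃+* QQ) g g' hg1 hg' hgs hg3
    · exact above_fixed hF hM h hd1 hvO hw hws (τ : QQ ≃+* QQ) g g' hg1 hg' hgs hg4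
  have hactpq : Act M₀ p q := by
    intro τ
    obtain ⟨g, h1, h2, ⟨h3, h4⟩, -⟩ := hgal τ
    exact ⟨g, h1, h2, h3, h4⟩
  have hactrw : Act M₀ r w := by
    intro τ
    obtain ⟨g, h1, h2, -, h3, h4⟩ := hgal τ
    exact ⟨g, h1, h2, h3, h4⟩
  have hne : ∀ {V W : Place QQ M}, V.ring.comap (φ : F →+* M) = P.ring →
      W.ring.comap (φ : F →+* M) = O.ring → V ≠ W := by
    rintro V W hV hW rfl
    exact hPO (Place.ext (hV.symm.trans hW))
  have hss : (1 + s) * (1 - s) ≠ 0 := by
    have h1 : (1 + s) * (1 - s) = φ (1 - d) := by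
      rw [map_sub, map_one, ← h.sq]
      ring
    rw [h1]
    exact (map_ne_zero φ).2 (sub_ne_zero.2 hd1.symm)
  refine ⟨M, _, _, φ, M₀, ((1 + s) / (1 - s)) ^ 2, 2 * N, p, q, r, w, ?_, hp, hq⟩
  have hcast : ((2 * N : ℕ) : ℤ) = 2 * (N : ℤ) := by push_cast; rfl
  refine
    { curve := hM
      gen := ?_
      ne_zero := pow_ne_zero 2 (div_ne_zero (left_ne_zero_of_mul hss) (right_ne_zero_of_mul hss))
      mem := pow_mem (div_mem (add_mem (one_mem _) hsM₀) (sub_mem (one_mem _) hsM₀)) 2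
      rat_p := hactpq.rational.1
      rat_q := hactpq.rational.2
      rat_r := hactrw.rational.1
      rat_s := hactrw.rational.2
      ne_pq := hne hp hq
      ne_rs := hne hr hw
      pos := Nat.mul_pos two_pos hN
      zero_p := by
        rw [hcast]
        exact hasOrd_sq (ord_zero hF h hd1 hvP hp hps hoP)
      zero_q := by
        rw [hcast]
        exact hasOrd_sq (ord_zero hF h hd1 hvO hq hqs hoO)
      pole_r := by
        rw [hcast, ← mul_neg]
        exact hasOrd_sq (ord_pole hF h hd1 hvP hr hrs hoP)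
      pole_s := by
        rw [hcast, ← mul_neg]
        exact hasOrd_sq (ord_pole hF h hd1 hvO hw hws hoO)
      unit := ?_
      unram := unram_sq hF (by rw [hd']; exact h) hun }
  · rw [eq_top_iff]
    intro m _
    obtain ⟨a, b, rfl⟩ := h.span m
    have hmap : ∀ f : F, φ f ∈ IntermediateField.adjoin QQ (M₀ : Set M) := by
      intro f
      have h1 : φ f ∈ (IntermediateField.adjoin QQ (F₀ : Set F)).map φ := by
        rw [gen]
        exact ⟨f, IntermediateField.mem_top, rfl⟩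
      rw [IntermediateField.adjoin_map] at h1
      refine IntermediateField.adjoin.mono QQ _ _ ?_ h1
      rintro _ ⟨x, hx, rfl⟩
      exact hφM₀ x hx
    exact add_mem (hmap a) (mul_mem (hmap b) (IntermediateField.subset_adjoin _ _ hsM₀))
  · intro V hVp hVq hVr hVw
    obtain ⟨v, hv⟩ := exists_pull hF hM (RingEquiv.refl QQ) (φ : F →+* M)
      (fun c => φ.commutes c) V
    by_cases hvp : v = P
    · subst hvp
      exfalso
      rcases above_value hM h.sq hvP hv with h1 | h1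
      · exact hVr (above_unique hF hM h hd1 hvP hv hr h1 hrs)
      · exact hVp (above_unique hF hM h.neg hd1 hvP hv hp h1 hps)
    by_cases hvo : v = O
    · subst hvo
      exfalso
      rcases above_value hM h.sq hvO hv with h1 | h1
      · exact hVw (above_unique hF hM h hd1 hvO hv hw h1 hws)
      · exact hVq (above_unique hF hM h.neg hd1 hvO hv hq h1 hqs)
    have h1 := hasOrd_sq (ord_unit hM ht0' hu0 hd h.sq hF (hureg v hvp hvo) hv)
    rwa [mul_zero] at h1

end Pool.Agent.Dess4
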