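import Pool.Agent.Dess.Final
import Pool.Agent.Dess4.Defs

/-!
# Zero-cycles supported on a set of points of rank one
-/

set_option autoImplicit false

noncomputable section

namespace Pool.Agent.Dess4

open Pool.Agent.ZCyc Pool.Agent.Dess
open scoped Classical

variable {k F : Type} [Field k] [Field F] [Algebra k F]

section Tor

variable {ι : Type} {L : ι → Type} [∀ i, Field (L i)] [∀ i, Algebra k (L i)]

theorem tor_of_zsmul {z : (∀ i, Place k (L i)) →₀ ℤ} {n : ℤ} (hn : n ≠ 0)
    (h : n • z ∈ torGroup L) : z ∈ torGroup L := by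
  have h1 : n.natAbs • z ∈ torGroup L := by
    rcases Int.natAbs_eq n with h2 | h2
    · rw [h2, natCast_zsmul] at h
      exact h
    · rw [h2, neg_smul, natCast_zsmul] at h
      have := neg_mem h
      rwa [neg_neg] at this
  obtain ⟨m, hm, h2⟩ := h1
  refine ⟨m * n.natAbs, Nat.mul_pos hm (Int.natAbs_pos.2 hn), ?_⟩
  rwa [mul_smul]

theorem tor_of_ratEq {z : (∀ i, Place k (L i)) →₀ ℤ} {n : ℤ} (hn : n ≠ 0)
    (h : n • z ∈ RatEq L) : RatTor L z :=
  tor_of_zsmul hn (ratEq_le_torGroup h)

end Tor

/-- the quotient by the torsion cycles -/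
abbrev Quo (k F : Type) [Field k] [Field F] [Algebra k F] : Type :=
  ((Bool → Place k F) →₀ ℤ) ⧸ torGroup (k := k) fun _ : Bool => F

/-- the class of the point `(p, q)` -/
def bt (p q : Place k F) : Quo k F :=
  QuotientAddGroup.mk (Finsupp.single (pair (L := fun _ => F) p q) 1)

theorem quo_tf {x : Quo k F} {n : ℤ} (hn : n ≠ 0) (h : n • x = 0) : x = 0 := by
  obtain ⟨z, rfl⟩ := QuotientAddGroup.mk_surjective x
  rw [← QuotientAddGroup.mk_zsmul, QuotientAddGroup.eq_zero_iff] at h
  rw [QuotientAddGroup.eq_zero_iff]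
  exact tor_of_zsmul hn h

/-- push-forward of relations between points of the curve -/
theorem push {f : Place k F → Quo k F} (Φ : (Unit → Place k F) → Bool → Place k F)
    (hΦ : IsMor (L := fun _ : Unit => F) (L' := fun _ : Bool => F) Φ)
    (hf : ∀ p, f p = QuotientAddGroup.mk (Finsupp.single (Φ fun _ => p) 1))
    {p q p' q' : Place k F} {m n : ℤ}
    (h : m • dif p q + n • dif p' q' ∈ torGroup fun _ : Unit => F) :
    m • (f p - f q) + n • (f p' - f q') = 0 := by
  have h1 : (m • dif p q + n • dif p' q').mapDomain Φ ∈ torGroup (fun _ : Bool => F) :=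
    map_tor Φ hΦ h
  have h2 : ∀ z w : (Unit → Place k F) →₀ ℤ,
      (z - w).mapDomain Φ = z.mapDomain Φ - w.mapDomain Φ := fun z w =>
    map_sub (Finsupp.mapDomain.addMonoidHom (M := ℤ) Φ) z w
  have h3 : ∀ (c : ℤ) (z : (Unit → Place k F) →₀ ℤ),
      (c • z).mapDomain Φ = c • z.mapDomain Φ := fun c z =>
    map_zsmul (Finsupp.mapDomain.addMonoidHom (M := ℤ) Φ) c z
  rw [Finsupp.mapDomain_add, h3, h3, dif, dif, h2, h2, Finsupp.mapDomain_single,
    Finsupp.mapDomain_single, Finsupp.mapDomain_single, Finsupp.mapDomain_single,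
    ← QuotientAddGroup.eq_zero_iff] at h1
  rw [hf, hf, hf, hf]
  exact h1

theorem push_left {p q p' q' : Place k F} {m n : ℤ} (x : Place k F)
    (h : m • dif p q + n • dif p' q' ∈ torGroup fun _ : Unit => F) :
    m • (bt p x - bt q x) + n • (bt p' x - bt q' x) = 0 := by
  refine push (f := fun p => bt p x) (fun v => pair (L := fun _ => F) (v ()) x) ?_
    (fun p => rfl) h
  rintro (_ | _)
  · exact Or.inr ⟨(), AlgHom.id k _, fun v => rfl⟩
  · exact Or.inl ⟨x, fun v => rfl⟩

theorem push_right {p q p' q' : Place k F} {m n : ℤ} (x : Place k F)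
    (h : m • dif p q + n • dif p' q' ∈ torGroup fun _ : Unit => F) :
    m • (bt x p - bt x q) + n • (bt x p' - bt x q') = 0 := by
  refine push (f := fun p => bt x p) (fun v => pair (L := fun _ => F) x (v ())) ?_
    (fun p => rfl) h
  rintro (_ | _)
  · exact Or.inl ⟨x, fun v => rfl⟩
  · exact Or.inr ⟨(), AlgHom.id k _, fun v => rfl⟩

theorem push_diag {p q p' q' : Place k F} {m n : ℤ}
    (h : m • dif p q + n • dif p' q' ∈ torGroup fun _ : Unit => F) :
    m • (bt p p - bt q q) + n • (bt p' p' - bt q' q') = 0 := by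
  refine push (f := fun p => bt p p) (fun v => pair (L := fun _ => F) (v ()) (v ())) ?_
    (fun p => rfl) h
  rintro (_ | _)
  · exact Or.inr ⟨(), AlgHom.id k _, fun v => rfl⟩
  · exact Or.inr ⟨(), AlgHom.id k _, fun v => rfl⟩

/-- the class of the cycle `(p - o) × (q - o)` -/
def sy (o p q : Place k F) : Quo k F := bt p q - bt p o - bt o q + bt o o

theorem sym_eq (p p' q q' : Place k F) :
    ((sym (L := fun _ => F) p p' q q' : (Bool → Place k F) →₀ ℤ) : Quo k F) =
      bt p q - bt p q' - bt p' q + bt p' q' := by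
  rw [sym]
  rfl

theorem sym_eq' (o p p' q q' : Place k F) :
    ((sym (L := fun _ => F) p p' q q' : (Bool → Place k F) →₀ ℤ) : Quo k F) =
      sy o p q - sy o p q' - sy o p' q + sy o p' q' := by
  rw [sym_eq]
  simp only [sy]
  abel

theorem sy_self_left (o q : Place k F) : sy o o q = 0 := by
  rw [sy]
  abel

/-- three points: the relation `m (a - c) + n (b - c) = 0` with `m`, `m + n` not zero -/
theorem three_sy {a b c : Place k F} {m n : ℤ} (hm : m ≠ 0) (hmn : m + n ≠ 0)
    (h : m • dif a c + n • dif b c ∈ torGroup fun _ : Unit => F) : sy c a a = 0 := by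
  have h1 := push_left a h
  have h2 := push_left c h
  have h3 := push_right b h
  have h4 := push_right c h
  have h5 := push_right a h
  have h6 := push_left b h
  have h7 := push_diag h
  -- `m (a, a) + n (b, a) = 0`, `m (a, b) + n (b, b) = 0` and `m (a, a) + n (b, b) = 0`
  have e1 : m • sy c a a + n • sy c a b = 0 := by
    have e : m • sy c a a + n • sy c a b =
      (m • (bt a a - bt a c) + n • (bt a b - bt a c)) -
        (m • (bt c a - bt c c) + n • (bt c b - bt c c)) := by
      simp only [sy]
      module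
    rw [e, h5, push_right c h, sub_zero]
  have e2 : m • sy c a b + n • sy c b b = 0 := by
    have e : m • sy c a b + n • sy c b b =
      (m • (bt a b - bt c b) + n • (bt b b - bt c b)) -
        (m • (bt a c - bt c c) + n • (bt b c - bt c c)) := by
      simp only [sy]
      module
    rw [e, h6, h2, sub_zero]
  have e3 : m • sy c a a + n • sy c b b = 0 := by
    have e : m • sy c a a + n • sy c b b =
      (m • (bt a a - bt c c) + n • (bt b b - bt c c)) -
        (m • (bt a c - bt c c) + n • (bt b c - bt c c)) -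
        (m • (bt c a - bt c c) + n • (bt c b - bt c c)) := by
      simp only [sy]
      module
    rw [e, h7, h2, h4, sub_zero, sub_zero]
  have e4 : (m * (m + n)) • sy c a a = 0 := by
    have e : (m * (m + n)) • sy c a a = m • (m • sy c a a + n • sy c a b) +
        n • (m • sy c a a + n • sy c b b) - n • (m • sy c a b + n • sy c b b) := by
      module
    rw [e, e1, e2, e3, smul_zero, smul_zero, add_zero, sub_zero]
  exact quo_tf (mul_ne_zero hm hmn) e4

/-- if `p - c` is a multiple of `a - c`, then the symbols are multiples -/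
theorem line_left {a c p : Place k F} {m n : ℤ} (hm : m ≠ 0)
    (h : m • dif p c + n • dif a c ∈ torGroup fun _ : Unit => F) {x : Place k F}
    (hx : sy c a x = 0) : sy c p x = 0 := by
  apply quo_tf hm
  have e : m • sy c p x = (m • (bt p x - bt c x) + n • (bt a x - bt c x)) -
      (m • (bt p c - bt c c) + n • (bt a c - bt c c)) - n • sy c a x := by
    simp only [sy]
    module
  rw [e, push_left x h, push_left c h, hx, smul_zero, sub_zero, sub_zero]

theorem line_right {a c p : Place k F} {m n : ℤ} (hm : m ≠ 0)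
    (h : m • dif p c + n • dif a c ∈ torGroup fun _ : Unit => F) {x : Place k F}
    (hx : sy c x a = 0) : sy c x p = 0 := by
  apply quo_tf hm
  have e : m • sy c x p = (m • (bt x p - bt x c) + n • (bt x a - bt x c)) -
      (m • (bt c p - bt c c) + n • (bt c a - bt c c)) - n • sy c x a := by
    simp only [sy]
    module
  rw [e, push_right x h, push_right c h, hx, smul_zero, sub_zero, sub_zero]

/-- the point `p - c` is a rational multiple of `a - c` -/
def OnLine (a c p : Place k F) : Prop :=
  ∃ m n : ℤ, m ≠ 0 ∧ m • dif p c + n • dif a c ∈ torGroup fun _ : Unit => F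

theorem line_sym {a c : Place k F} (h0 : sy c a a = 0) {p p' q q' : Place k F}
    (hp : OnLine a c p) (hp' : OnLine a c p') (hq : OnLine a c q) (hq' : OnLine a c q') :
    RatTor (fun _ : Bool => F) (sym (L := fun _ => F) p p' q q') := by
  have key : ∀ p q, OnLine a c p → OnLine a c q → sy c p q = 0 := by
    rintro p q ⟨m, n, hm, h⟩ ⟨m', n', hm', h'⟩
    exact line_left hm h (line_right hm' h' h0)
  change sym (L := fun _ => F) p p' q q' ∈ torGroup fun _ : Bool => F
  rw [← QuotientAddGroup.eq_zero_iff, sym_eq' c, key p q hp hq, key p q' hp hq',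
    key p' q hp' hq, key p' q' hp' hq']
  simp

section Symbols

variable {ι : Type} {L : ι → Type} [∀ i, Field (L i)] [∀ i, Algebra k (L i)]

/-- the subgroup contains all mixed differences of points with coordinates in `W` -/
def SymbolsOn (W : ∀ i, Set (Place k (L i))) (T : AddSubgroup ((∀ i, Place k (L i)) →₀ ℤ)) :
    Prop :=
  ∀ (i j : ι), i ≠ j → ∀ (a : ∀ l, Place k (L l)) (p : Place k (L i)) (q : Place k (L j)),
    (∀ l, a l ∈ W l) → p ∈ W i → q ∈ W j →
      Finsupp.single a (1 : ℤ) - Finsupp.single (Function.update a i p) 1 -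
        Finsupp.single (Function.update a j q) 1 +
        Finsupp.single (Function.update (Function.update a i p) j q) 1 ∈ T

theorem piecewise_mem {W : ∀ i, Set (Place k (L i))} {a a₀ : ∀ l, Place k (L l)}
    (ha : ∀ l, a l ∈ W l) (ha₀ : ∀ l, a₀ l ∈ W l) (s : Finset ι) (l : ι) :
    s.piecewise a a₀ l ∈ W l := by
  by_cases hl : l ∈ s
  · rw [Finset.piecewise_eq_of_mem _ _ _ hl]
    exact ha l
  · rw [Finset.piecewise_eq_of_notMem _ _ _ hl]
    exact ha₀ l

theorem symbolsOn_diff {W : ∀ i, Set (Place k (L i))}
    {T : AddSubgroup ((∀ i, Place k (L i)) →₀ ℤ)} (h : SymbolsOn W T)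
    (a a₀ : ∀ l, Place k (L l)) (ha : ∀ l, a l ∈ W l) (ha₀ : ∀ l, a₀ l ∈ W l) (j : ι)
    (q : Place k (L j)) (hq : q ∈ W j) (s : Finset ι) (hj : j ∉ s) :
    Finsupp.single (Function.update (s.piecewise a a₀) j q) (1 : ℤ) -
      Finsupp.single (s.piecewise a a₀) 1 -
      (Finsupp.single (Function.update a₀ j q) 1 - Finsupp.single a₀ 1) ∈ T := by
  induction s using Finset.induction_on with
  | empty =>
    rw [Finset.piecewise_empty, sub_self]
    exact zero_mem _
  | insert i s hi ih =>
    have hij : i ≠ j := by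
      rintro rfl
      exact hj (Finset.mem_insert_self _ _)
    have h1 := ih fun hjs => hj (Finset.mem_insert_of_mem hjs)
    have h2 := h i j hij (s.piecewise a a₀) (a i) q (piecewise_mem ha ha₀ s) (ha i) hq
    have h3 := add_mem h1 h2
    rw [Finset.piecewise_insert]
    convert h3 using 1
    abel

theorem symbolsOn_point {W : ∀ i, Set (Place k (L i))}
    {T : AddSubgroup ((∀ i, Place k (L i)) →₀ ℤ)} (h : SymbolsOn W T)
    (a a₀ : ∀ l, Place k (L l)) (ha : ∀ l, a l ∈ W l) (ha₀ : ∀ l, a₀ l ∈ W l) (s : Finset ι) :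
    Finsupp.single (s.piecewise a a₀) (1 : ℤ) - Finsupp.single a₀ 1 -
      ∑ i ∈ s, (Finsupp.single (Function.update a₀ i (a i)) 1 - Finsupp.single a₀ 1) ∈ T := by
  induction s using Finset.induction_on with
  | empty =>
    rw [Finset.piecewise_empty, sub_self, Finset.sum_empty, sub_zero]
    exact zero_mem _
  | insert i s hi ih =>
    have h1 := symbolsOn_diff h a a₀ ha ha₀ i (a i) (ha i) s hi
    have h2 := add_mem h1 ih
    rw [Finset.piecewise_insert, Finset.sum_insert hi]
    convert h2 using 1
    abel

/-- the part of the kernel of the Albanese map, which is supported on `W`, is generated by the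
mixed differences -/
theorem of_symbolsOn [Fintype ι] {W : ∀ i, Set (Place k (L i))}
    {T : AddSubgroup ((∀ i, Place k (L i)) →₀ ℤ)} (hT : RatEq L ≤ T) (h : SymbolsOn W T)
    {z : (∀ i, Place k (L i)) →₀ ℤ} (hW : ∀ a ∈ z.support, ∀ i, a i ∈ W i)
    (hz : AlbKer L z) : z ∈ T := by
  obtain ⟨hd, hz⟩ := hz
  by_cases hne : z.support.Nonempty
  · obtain ⟨a₀, ha₀'⟩ := hne
    have ha₀ := hW a₀ ha₀'
    let deg : ((∀ i, Place k (L i)) →₀ ℤ) →+ ℤ :=
      Finsupp.liftAddHom (fun _ => AddMonoidHom.id ℤ)
    have hdeg : deg z = 0 := by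
      rw [← hd]
      simp only [deg, Finsupp.liftAddHom_apply]
      rfl
    let ins : ∀ i, (∀ i, Place k (L i)) → ∀ i, Place k (L i) := fun i a =>
      Function.update a₀ i (a i)
    let κ : ((∀ i, Place k (L i)) →₀ ℤ) →+ ((∀ i, Place k (L i)) →₀ ℤ) :=
      { toFun := fun z => z - deg z • Finsupp.single a₀ 1 -
          ∑ i, (z.mapDomain (ins i) - deg z • Finsupp.single a₀ 1)
        map_zero' := by simp
        map_add' := by
          intro f g
          simp only [map_add, Finsupp.mapDomain_add, Finset.sum_sub_distrib,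
            Finset.sum_add_distrib, add_smul]
          abel }
    have key : κ z ∈ T := by
      rw [← z.sum_single, map_finsuppSum]
      apply sum_mem
      intro a ha
      have h1 := symbolsOn_point h a a₀ (hW a ha) ha₀ Finset.univ
      rw [Finset.piecewise_univ] at h1
      have h2 := T.zsmul_mem h1 (z a)
      convert h2 using 1
      have h3 : deg (Finsupp.single a (z a)) = z a := by
        simp [deg]
      change Finsupp.single a (z a) - deg (Finsupp.single a (z a)) • Finsupp.single a₀ 1 -
          ∑ i, ((Finsupp.single a (z a)).mapDomain (ins i) -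
            deg (Finsupp.single a (z a)) • Finsupp.single a₀ 1) = _
      rw [h3, smul_sub, smul_sub, Finset.smul_sum]
      simp only [smul_sub, Finsupp.smul_single, smul_eq_mul, mul_one, Finsupp.mapDomain_single,
        ins]
    have h1 : z - deg z • Finsupp.single a₀ 1 -
        ∑ i, (z.mapDomain (ins i) - deg z • Finsupp.single a₀ 1) ∈ T := key
    rw [hdeg, zero_smul, sub_zero] at h1
    have h2 : ∑ i, (z.mapDomain (ins i) - 0) ∈ T := by
      apply sum_mem
      intro i _
      rw [sub_zero]
      have h3 : z.mapDomain (ins i) = (z.mapDomain fun p (_ : Unit) => p i).mapDomain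
          (fun p : Unit → Place k (L i) => Function.update a₀ i (p ())) := by
        rw [← Finsupp.mapDomain_comp]
        rfl
      rw [h3]
      apply hT
      refine map_mem _ ?_ (hz i)
      intro j
      by_cases hij : j = i
      · subst hij
        right
        refine ⟨(), AlgHom.id k _, fun a => ?_⟩
        simp only [Function.update_self]
        rfl
      · left
        exact ⟨a₀ j, fun a => Function.update_of_ne hij _ _⟩
    have h3 := add_mem h1 h2
    rw [sub_add_cancel] at h3
    exact h3
  · rw [Finset.not_nonempty_iff_eq_empty, Finsupp.support_eq_empty] at hne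
    rw [hne]
    exact zero_mem _

end Symbols

/-- zero-cycles supported on a set of points with vanishing symbols -/
theorem of_sym {W : Set (Place k F)}
    (h : ∀ p ∈ W, ∀ p' ∈ W, ∀ q ∈ W, ∀ q' ∈ W,
      RatTor (fun _ : Bool => F) (sym (L := fun _ => F) p p' q q'))
    {ι : Type} [Fintype ι] {z : (ι → Place k F) →₀ ℤ} (hW : ∀ a ∈ z.support, ∀ i, a i ∈ W)
    (hz : AlbKer (fun _ => F) z) : RatTor (fun _ => F) z := by
  refine of_symbolsOn (L := fun _ : ι => F) (W := fun _ => W) (T := torGroup fun _ : ι => F)
    ratEq_le_torGroup ?_ hW hz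
  intro i j hij a p q ha hp hq
  have h1 := h (a i) (ha i) p hp (a j) (ha j) q hq
  have h2 := map_tor (L := fun _ : Bool => F) (L' := fun _ : ι => F) (fun b =>
    Function.update (Function.update a i (b false)) j (b true)) (by
      intro l
      by_cases hl : l = j
      · subst hl
        right
        refine ⟨true, AlgHom.id k _, fun b => ?_⟩
        simp only [Function.update_self]
        rfl
      · by_cases hl' : l = i
        · subst hl'
          right
          refine ⟨false, AlgHom.id k _, fun b => ?_⟩
          simp only [Function.update_self, Function.update_of_ne hl]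
          rfl
        · left
          refine ⟨a l, fun b => ?_⟩
          simp only [Function.update_of_ne hl, Function.update_of_ne hl']) h1
  rw [sym] at h2
  simp only [Finsupp.mapDomain_add, sub_eq_add_neg, ← Finsupp.single_neg,
    Finsupp.mapDomain_single, pair] at h2
  rw [Function.update_eq_self, Function.update_eq_self] at h2
  change _ ∈ torGroup fun _ : ι => F at h2
  convert h2 using 1
  simp only [Finsupp.single_neg]
  have h3 : ∀ p, Function.update (Function.update a i p) j (a j) = Function.update a i p := by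
    intro p
    rw [Function.update_comm hij, Function.update_eq_self]
  rw [h3]
  abel

/-- **Sets of points of rank one.** -/
theorem rank_one {S : Set (Place k F)} (hS : RankLeOne S)
    (h3 : ∃ a ∈ S, ∃ b ∈ S, ∃ c ∈ S, ¬ DifTor a b ∧ ¬ DifTor b c ∧ ¬ DifTor a c)
    {ι : Type} [Fintype ι] {z : (ι → Place k F) →₀ ℤ} (hW : ∀ a ∈ z.support, ∀ i, a i ∈ S)
    (hz : AlbKer (fun _ => F) z) : RatTor (fun _ => F) z := by
  obtain ⟨a, ha, b, hb, c, hc, hab, hbc, hac⟩ := h3
  obtain ⟨m, n, hmn, h⟩ := hS a ha c hc b hb c hc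
  have hm : m ≠ 0 := by
    rintro rfl
    rw [zero_smul, zero_add] at h
    exact hbc (tor_of_ratEq (by simpa using hmn) h)
  have hn : m + n ≠ 0 := by
    intro h0
    have h1 : n = -m := by omega
    rw [h1, neg_smul, ← sub_eq_add_neg, ← smul_sub] at h
    apply hab
    refine tor_of_ratEq hm ?_
    have e : dif a b = dif a c - dif b c := by
      rw [dif, dif, dif]
      abel
    rw [e]
    exact h
  have h0 := three_sy hm hn (ratEq_le_torGroup h)
  refine of_sym (W := S) ?_ hW hz
  have hline : ∀ p ∈ S, OnLine a c p := by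
    intro p hp
    obtain ⟨m', n', hmn', h'⟩ := hS p hp c hc a ha c hc
    refine ⟨m', n', ?_, ratEq_le_torGroup h'⟩
    rintro rfl
    rw [zero_smul, zero_add] at h'
    exact hac (tor_of_ratEq (by simpa using hmn') h')
  intro p hp p' hp' q hq q' hq'
  exact line_sym h0 (hline p hp) (hline p' hp') (hline q hq) (hline q' hq')

end Pool.Agent.Dess4
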