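import Pool.Agent.Dess4.Line
import Pool.Agent.Dess4.Deg

/-!
# Functions with at most three zeros and poles
-/

set_option autoImplicit false

noncomputable section

namespace Pool.Agent.Dess4

open Pool.Agent.ZCyc Pool.Agent.Dess
open scoped Classical

variable {k F : Type} [Field k] [Field F] [Algebra k F]

theorem dif_self (c : Place k F) : dif c c = 0 := sub_self _

theorem onLine_base (a c : Place k F) : OnLine a c c :=
  ⟨1, 0, one_ne_zero, by rw [dif_self]; simp⟩

theorem onLine_self (a c : Place k F) : OnLine a c a :=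
  ⟨1, -1, one_ne_zero, by rw [one_smul, neg_smul, one_smul, add_neg_cancel]; exact zero_mem _⟩

/-- the divisor of a function is rationally equivalent to zero -/
theorem div_mem (hF : IsCurve k F) {h : F} (hh : h ≠ 0) {S : Finset (Place k F)}
    {n : Place k F → ℤ} (h1 : ∀ v ∈ S, HasOrd v h (n v)) (h2 : ∀ v ∉ S, HasOrd v h 0) :
    ∑ v ∈ S, n v • Finsupp.single (fun _ : Unit => v) (1 : ℤ) ∈
      RatEq (k := k) fun _ : Unit => F := by
  apply AddSubgroup.subset_closure
  refine ⟨F, _, _, fun v _ => v, h, S, n, hF, ?_, hh, h1, h2, ?_⟩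
  · intro i
    exact Or.inr ⟨AlgHom.id k F, fun v => rfl⟩
  · apply Finset.sum_congr rfl
    intro v _
    rw [Finsupp.smul_single, smul_eq_mul, mul_one]

/-- **Three points.** -/
theorem three_points [IsAlgClosed k] [CharZero k] (hF : IsCurve k F) {h : F}
    {S : Finset (Place k F)} (hS : ∀ v, v ∈ S ↔ ¬ HasOrd v h 0) (h3 : S.card ≤ 3)
    {ι : Type} [Fintype ι] {z : (ι → Place k F) →₀ ℤ} (hW : ∀ a ∈ z.support, ∀ i, a i ∈ S)
    (hz : AlbKer (fun _ => F) z) : RatTor (fun _ => F) z := by
  refine of_sym (W := (S : Set (Place k F))) ?_ hW hz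
  by_cases hh : h = 0
  · intro p hp
    exfalso
    rw [Finset.mem_coe, hS] at hp
    apply hp
    obtain ⟨π, hπ⟩ := exists_unif hF p
    refine ⟨π, hπ, ?_, ?_⟩ <;> simp [hh]
  have hord : ∀ v : Place k F, ∃ n, HasOrd v h n := by
    intro v
    obtain ⟨π, hπ⟩ := exists_unif hF v
    obtain ⟨n, h1, h2⟩ := exists_ord hF v hπ hh
    exact ⟨n, π, hπ, h1, h2⟩
  choose n hn using hord
  have hn0 : ∀ v ∈ S, n v ≠ 0 := by
    intro v hv h0
    apply (hS v).1 hv
    rw [← h0]
    exact hn v
  have hn' : ∀ v ∉ S, HasOrd v h 0 := by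
    intro v hv
    rwa [hS, not_not] at hv
  have hdeg := degree_zero hF hh S n (fun v _ => hn v) hn'
  have hdiv := div_mem hF hh (fun v _ => hn v) hn'
  have hc : S.card = 0 ∨ S.card = 1 ∨ S.card = 2 ∨ S.card = 3 := by omega
  rcases hc with hc | hc | hc | hc
  · rw [Finset.card_eq_zero] at hc
    subst hc
    intro p hp
    simp at hp
  · rw [Finset.card_eq_one] at hc
    obtain ⟨c, rfl⟩ := hc
    intro p hp p' hp' q hq q' hq'
    simp only [Finset.coe_singleton, Set.mem_singleton_iff] at hp hp' hq hq'
    subst hp hp' hq hq'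
    refine ⟨1, one_pos, ?_⟩
    rw [sym]
    simp
  · rw [Finset.card_eq_two] at hc
    obtain ⟨a, c, hac, rfl⟩ := hc
    rw [Finset.sum_pair hac] at hdeg hdiv
    have hm := hn0 a (by simp)
    have hmc : n c = -n a := by omega
    have h1 : n a • dif a c + (0 : ℤ) • dif c c ∈ torGroup (k := k) fun _ : Unit => F := by
      apply ratEq_le_torGroup
      rw [hmc] at hdiv
      convert hdiv using 1
      rw [dif_self, dif]
      module
    have h0 := three_sy hm (by simpa using hm) h1
    have hl : ∀ p ∈ (({a, c} : Finset (Place k F)) : Set (Place k F)), OnLine a c p := by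
      intro p hp
      simp only [Finset.coe_pair, Set.mem_insert_iff, Set.mem_singleton_iff] at hp
      rcases hp with rfl | rfl
      · exact onLine_self _ _
      · exact onLine_base _ _
    intro p hp p' hp' q hq q' hq'
    exact line_sym h0 (hl p hp) (hl p' hp') (hl q hq) (hl q' hq')
  · rw [Finset.card_eq_three] at hc
    obtain ⟨a, b, c, hab, hac, hbc, rfl⟩ := hc
    have hsum : ∀ {X : Type} [AddCommMonoid X] (f : Place k F → X),
        ∑ v ∈ ({a, b, c} : Finset (Place k F)), f v = f a + (f b + f c) := by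
      intro X _ f
      rw [Finset.sum_insert (by simp [hab, hac]), Finset.sum_pair hbc]
    rw [hsum] at hdeg hdiv
    have hm := hn0 a (by simp)
    have hb := hn0 b (by simp)
    have hcc := hn0 c (by simp)
    have hmc : n c = -(n a + n b) := by omega
    have h1 : n a • dif a c + n b • dif b c ∈ RatEq (k := k) fun _ : Unit => F := by
      rw [hmc] at hdiv
      convert hdiv using 1
      rw [dif, dif]
      module
    have h0 := three_sy hm (by omega) (ratEq_le_torGroup h1)
    have hl : ∀ p ∈ (({a, b, c} : Finset (Place k F)) : Set (Place k F)), OnLine a c p := by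
      intro p hp
      simp only [Finset.coe_insert, Finset.coe_singleton, Set.mem_insert_iff,
        Set.mem_singleton_iff] at hp
      rcases hp with rfl | rfl | rfl
      · exact onLine_self _ _
      · refine ⟨n p, n a, hb, ratEq_le_torGroup ?_⟩
        rw [add_comm]
        exact h1
      · exact onLine_base _ _
    intro p hp p' hp' q hq q' hq'
    exact line_sym h0 (hl p hp) (hl p' hp') (hl q hq) (hl q' hq')

end Pool.Agent.Dess4
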