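import Pool.Agent.Dess4.Joint
import Pool.Agent.Dess4.Three
import Pool.Agent.Dess.Main

/-!
# Three and four zeros and poles
-/

set_option autoImplicit false

noncomputable section

namespace Pool.Agent.Dess4

open Pool.Agent.ZCyc Pool.Agent.Dess
open scoped Classical

/-- every mixed difference is the image of a cycle `(p - q) × (p - q)` for a function with four
zeros and poles -/
theorem symbol_four {ι : Type} {L : ι → Type} [∀ i, Field (L i)] [∀ i, Algebra QQ (L i)]
    (hL : ∀ i, IsCurve QQ (L i)) {i j : ι} (hij : i ≠ j) (a : ∀ l, Place QQ (L l))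
    {x : Place QQ (L i)} {y : Place QQ (L j)} (hx : a i ≠ x) (hy : a j ≠ y) :
    ∃ (M : Type) (_ : Field M) (_ : Algebra QQ M) (M₀ : Subfield M) (h : M) (N : ℕ)
      (p q r s : Place QQ M) (Φ : (Bool → Place QQ M) → ∀ l, Place QQ (L l)),
      FourPoints M₀ h N p q r s ∧ IsMor Φ ∧
      Finsupp.single a (1 : ℤ) - Finsupp.single (Function.update a i x) 1 -
        Finsupp.single (Function.update a j y) 1 +
        Finsupp.single (Function.update (Function.update a i x) j y) 1 =
          (square p q).mapDomain Φ := by
  let s : Bool → ι := fun b => cond b j i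
  let A : ∀ b, Place QQ (L (s b)) := fun b => a (s b)
  let B : ∀ b, Place QQ (L (s b)) := fun b => match b with
    | true => y
    | false => x
  obtain ⟨F, _, _, F₀, P, O, f₀, hF, hgen, hact, hP₀, hO₀⟩ := joint (fun b => L (s b))
    (fun b => hL (s b)) A B (by rintro (_ | _); exacts [hx, hy])
  have hPO : P ≠ O := by
    intro hPO
    apply hx
    apply Place.ext
    have h1 := hP₀ false
    have h2 := hO₀ false
    rw [hPO, h2] at h1
    exact h1.symm
  obtain ⟨M, _, _, φ, M₀, h, N, p, q, r, w, hfour, hp, hq⟩ := four_points hF hgen hPO hact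
  have hM := hfour.curve
  let f : ∀ b, L (s b) →ₐ[QQ] M := fun b => φ.comp (f₀ b)
  have hP : ∀ b, p.ring.comap (f b : L (s b) →+* M) = (A b).ring := by
    intro b
    rw [← hP₀ b, ← hp]
    rfl
  have hO : ∀ b, q.ring.comap (f b : L (s b) →+* M) = (B b).ring := by
    intro b
    rw [← hO₀ b, ← hq]
    rfl
  have hpull : ∀ (b : Bool) (v : Place QQ M), ∃ w : Place QQ (L (s b)),
      v.ring.comap (f b : L (s b) →+* M) = w.ring := fun b v =>
    exists_pull (hL (s b)) hM (RingEquiv.refl QQ) (f b : L (s b) →+* M)
      (fun c => (f b).commutes c) v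
  choose g hg using hpull
  let Φ : (Bool → Place QQ M) → ∀ l, Place QQ (L l) := fun b =>
    Function.update (Function.update a i (g false (b false))) j (g true (b true))
  have hΦ : IsMor Φ := by
    intro l
    by_cases hl : l = j
    · subst hl
      right
      refine ⟨true, f true, fun b => ?_⟩
      simp only [Φ, Function.update_self]
      exact (hg true (b true)).symm
    · by_cases hl' : l = i
      · subst hl'
        right
        refine ⟨false, f false, fun b => ?_⟩
        simp only [Φ, Function.update_self, Function.update_of_ne hl]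
        exact (hg false (b false)).symm
      · left
        refine ⟨a l, fun b => ?_⟩
        simp only [Φ, Function.update_of_ne hl, Function.update_of_ne hl']
  have hgP0 : g false p = a i := Place.ext ((hg false p).symm.trans (hP false))
  have hgP1 : g true p = a j := Place.ext ((hg true p).symm.trans (hP true))
  have hgO0 : g false q = x := Place.ext ((hg false q).symm.trans (hO false))
  have hgO1 : g true q = y := Place.ext ((hg true q).symm.trans (hO true))
  refine ⟨M, _, _, M₀, h, N, p, q, r, w, Φ, hfour, hΦ, ?_⟩
  have h1 : Φ (pair (L := fun _ => M) p p) = a := by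
    simp only [Φ, pair, hgP0, hgP1, Function.update_eq_self]
  have h2 : Φ (pair (L := fun _ => M) p q) = Function.update a j y := by
    simp only [Φ, pair, hgP0, hgO1, Function.update_eq_self]
  have h3 : Φ (pair (L := fun _ => M) q p) = Function.update a i x := by
    simp only [Φ, pair, hgO0, hgP1]
    rw [Function.update_comm hij, Function.update_eq_self]
  have h4 : Φ (pair (L := fun _ => M) q q) =
      Function.update (Function.update a i x) j y := by
    simp only [Φ, pair, hgO0, hgO1]
  rw [map_square, h1, h2, h3, h4]
  abel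

/-- the kernel of the Albanese map is generated by the images of the cycles
`(p - q) × (p - q)` for functions with four zeros and poles -/
theorem generation_four {ι : Type} [Fintype ι] {L : ι → Type} [∀ i, Field (L i)]
    [∀ i, Algebra QQ (L i)] (hL : ∀ i, IsCurve QQ (L i))
    {T : AddSubgroup ((∀ i, Place QQ (L i)) →₀ ℤ)} (hT : RatEq L ≤ T)
    (h : ∀ w, FourCycle L w → w ∈ T) {z : (∀ i, Place QQ (L i)) →₀ ℤ} (hz : AlbKer L z) :
    z ∈ T := by
  refine of_symbols (T := T) hT ?_ hz
  intro i j hij a x y
  by_cases hx : a i = x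
  · have h0 : Finsupp.single a (1 : ℤ) - Finsupp.single (Function.update a i x) 1 -
        Finsupp.single (Function.update a j y) 1 +
        Finsupp.single (Function.update (Function.update a i x) j y) 1 = 0 := by
      rw [← hx, Function.update_eq_self]
      abel
    rw [h0]
    exact zero_mem _
  by_cases hy : a j = y
  · have h0 : Finsupp.single a (1 : ℤ) - Finsupp.single (Function.update a i x) 1 -
        Finsupp.single (Function.update a j y) 1 +
        Finsupp.single (Function.update (Function.update a i x) j y) 1 = 0 := by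
      rw [← hy, Function.update_eq_self, Function.update_comm hij, Function.update_eq_self]
      abel
    rw [h0]
    exact zero_mem _
  obtain ⟨M, _, _, M₀, f, N, p, q, r, s, Φ, hfour, hΦ, he⟩ := symbol_four hL hij a hx hy
  exact h _ ⟨M, _, _, M₀, f, N, p, q, r, s, Φ, hfour, hΦ, he⟩

theorem generation_four' {ι : Type} [Fintype ι] {L : ι → Type} [∀ i, Field (L i)]
    [∀ i, Algebra QQ (L i)] (hL : ∀ i, IsCurve QQ (L i)) {z : (∀ i, Place QQ (L i)) →₀ ℤ}
    (hz : AlbKer L z) : z ∈ RatEq L ⊔ AddSubgroup.closure {w | FourCycle L w} :=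
  generation_four hL le_sup_left
    (fun _ hw => (le_sup_right : _ ≤ RatEq L ⊔ _) (AddSubgroup.subset_closure hw)) hz

/-- **Four points.** -/
theorem four_main : ZeroCyclesConj ↔ FourPointsConj := by
  constructor
  · intro h F _ _ F₀ f N p q r s hf
    exact h Bool (fun _ => F) (fun _ => hf.curve) (square p q) (albKer_square p q)
  · intro h ι _ L _ _ hL z hz
    refine generation_four (T := torGroup L) hL ratEq_le_torGroup ?_ hz
    rintro w ⟨F, _, _, F₀, f, N, p, q, r, s, Φ, hfour, hΦ, rfl⟩
    exact map_tor Φ hΦ (h F F₀ f N p q r s hfour)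

/-- all forms of the conjecture -/
theorem four_tfae {Ω : Type} [Field Ω] [Algebra QQ Ω] {t : Ω} (hΩ : IsAlgFun t)
    {P O : Place QQ Ω} (hP : P.Vanishes t) (hO : t ∉ O.ring) :
    [ZeroCyclesConj, FourPointsConj, CofinalConj t P O].TFAE := by
  have h := main_tfae hΩ hP hO
  tfae_have 1 ↔ 2 := four_main
  tfae_have 1 ↔ 3 := h.out 0 3
  tfae_finish

end Pool.Agent.Dess4
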