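import Pool.Agent.Dess.Single
import Pool.Agent.Dess.Belyi
import Pool.Agent.Dess4.Defs

/-!
# A function with exactly two poles (package D4-TWO)
-/

set_option autoImplicit false

noncomputable section

namespace Pool.Agent.Dess4

open Pool.Agent.ZCyc Pool.Agent.Dess
open scoped Classical

/-- a function of negative order has a pole -/
theorem two_notMem {k F : Type} [Field k] [Field F] [Algebra k F] {v : Place k F} {g : F} {n : ℕ}
    (hg0 : g ≠ 0) (hn : 0 < n) (h : HasOrd v g (-n)) : g ∉ v.ring := by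
  obtain ⟨π, hπ, h1, h2⟩ := h
  intro hg
  have h3 : v.Vanishes (g / π ^ (-(n : ℤ))) := by
    rw [zpow_neg, zpow_natCast, div_inv_eq_mul]
    exact Place.Vanishes.mul' v (Place.Vanishes.pow v hπ.2.1 hn.ne') hg
  rcases (v.vanishes_iff_or _).1 h3 with h4 | h4
  · rcases div_eq_zero_iff.1 h4 with h5 | h5
    · exact hg0 h5
    · exact zpow_ne_zero _ hπ.1 h5
  · exact h4 h2

/-- a function with a pole has negative order -/
theorem two_ord {F : Type} [Field F] [Algebra QQ F] (hF : IsCurve QQ F) {v : Place QQ F} {w : F}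
    (hw : w ∉ v.ring) {π : F} (hπ : IsUnif v π) :
    ∃ m : ℕ, 0 < m ∧ w * π ^ m ∈ v.ring ∧ (w * π ^ m)⁻¹ ∈ v.ring := by
  have hw0 : w ≠ 0 := by
    rintro rfl
    exact hw (zero_mem _)
  obtain ⟨n, h1, h2⟩ := exists_ord hF v hπ hw0
  have hn : n < 0 := by
    by_contra hn
    push Not at hn
    obtain ⟨l, rfl⟩ := Int.eq_ofNat_of_zero_le hn
    apply hw
    have h3 : w = w / π ^ (l : ℤ) * π ^ l := by
      rw [zpow_natCast, div_mul_cancel₀ _ (pow_ne_zero _ hπ.1)]
    rw [h3]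
    exact mul_mem h1 (pow_mem (Place.Vanishes.mem v hπ.2.1) _)
  obtain ⟨m, hm⟩ := Int.eq_ofNat_of_zero_le (show (0 : ℤ) ≤ -n by omega)
  have hn' : n = -(m : ℤ) := by omega
  refine ⟨m, by omega, ?_, ?_⟩
  · rwa [hn', zpow_neg, zpow_natCast, div_inv_eq_mul] at h1
  · rwa [hn', zpow_neg, zpow_natCast, div_inv_eq_mul] at h2

/-- a function over the rational numbers with a single pole at `O` and the value one at `P` -/
theorem two_single {F : Type} [Field F] [Algebra QQ F] (hF : IsCurve QQ F) {F₀ : Subfield F}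
    (gen : IntermediateField.adjoin QQ (F₀ : Set F) = ⊤) {P O : Place QQ F} (hPO : P ≠ O)
    (h : Act F₀ P O) : ∃ w ∈ F₀, P.At w 1 ∧ w ∉ O.ring ∧ ∀ v, v ≠ O → w ∈ v.ring := by
  obtain ⟨w, hw0, hwt, hw⟩ := exists_single₀ hF gen h
  obtain ⟨c, hc⟩ := exists_at hF P (hw P hPO)
  obtain ⟨q, rfl⟩ := h.rational.1 w hw0 c hc
  have hq : algebraMap QQ F (algebraMap ℚ QQ (q - 1)) ∈ F₀ := by
    rw [← RingHom.comp_apply, eq_ratCast]
    exact SubfieldClass.ratCast_mem F₀ _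
  let w₁ : F := w - algebraMap QQ F (algebraMap ℚ QQ (q - 1))
  have hw₁0 : w₁ ∈ F₀ := sub_mem hw0 hq
  have hw₁t : Transcendental QQ w₁ := by
    intro halg
    apply hwt
    have h1 := halg.add (isAlgebraic_algebraMap (R := QQ) (A := F) (algebraMap ℚ QQ (q - 1)))
    simpa [w₁] using h1
  have hw₁ : ∀ v, v ≠ O → w₁ ∈ v.ring := fun v hv => sub_mem (hw v hv) (v.const_mem _)
  have hw₁O : w₁ ∉ O.ring := by
    have ht : Transcendental QQ w₁⁻¹ := fun h1 => hw₁t (by simpa using h1.inv)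
    obtain ⟨v, hv⟩ := exists_place ht 0
    have h1 : v.Vanishes w₁⁻¹ := Place.at_zero_iff.1 hv
    have h2 : w₁ ∉ v.ring := by
      rcases (v.vanishes_iff_or _).1 h1 with h2 | h2
      · exfalso
        apply hw₁t
        rw [inv_eq_zero.1 h2]
        exact isAlgebraic_zero
      · rwa [inv_inv] at h2
    have h3 : v = O := by
      by_contra hne
      exact h2 (hw₁ v hne)
    rwa [h3] at h2
  refine ⟨w₁, hw₁0, ?_, hw₁O, hw₁⟩
  have h1 := Place.At.sub (v := P) hc (Place.at_const (algebraMap ℚ QQ (q - 1)))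
  have h2 : algebraMap ℚ QQ q - algebraMap ℚ QQ (q - 1) = 1 := by
    rw [map_sub, map_one]
    ring
  rwa [h2] at h1

theorem two_swap {F : Type} [Field F] [Algebra QQ F] {F₀ : Subfield F} {P O : Place QQ F}
    (h : Act F₀ P O) : Act F₀ O P := by
  intro τ
  obtain ⟨g, h1, h2, h3, h4⟩ := h τ
  exact ⟨g, h1, h2, h4, h3⟩

/-- the order at `P` of the product -/
theorem two_hasOrd {F : Type} [Field F] [Algebra QQ F] {P : Place QQ F} {a b π : F}
    (hπ : IsUnif P π) {m : ℕ} (h1 : a * π ^ m ∈ P.ring) (h2 : (a * π ^ m)⁻¹ ∈ P.ring)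
    (hb : P.At b 1) (n l : ℕ) : HasOrd P (a ^ n * b ^ l) (-((m * n : ℕ) : ℤ)) := by
  have hb' : b⁻¹ ∈ P.ring := (hb.inv one_ne_zero).mem
  have h3 : a ^ n * b ^ l / π ^ (-((m * n : ℕ) : ℤ)) = (a * π ^ m) ^ n * b ^ l := by
    rw [zpow_neg, zpow_natCast, div_inv_eq_mul, mul_pow, ← pow_mul]
    ring
  refine ⟨π, hπ, ?_, ?_⟩
  · rw [h3]
    exact mul_mem (pow_mem h1 _) (pow_mem hb.mem _)
  · rw [h3, mul_inv, ← inv_pow, ← inv_pow]
    exact mul_mem (pow_mem h2 _) (pow_mem hb' _)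

/-- a function over the rational numbers with exactly two poles, of the same order -/
theorem exists_two {F : Type} [Field F] [Algebra QQ F] (hF : IsCurve QQ F) {F₀ : Subfield F}
    (gen : IntermediateField.adjoin QQ (F₀ : Set F) = ⊤) {P O : Place QQ F} (hPO : P ≠ O)
    (h : Act F₀ P O) : ∃ u ∈ F₀, Transcendental QQ u ∧ (∀ v, v ≠ P → v ≠ O → u ∈ v.ring) ∧
      ∃ N : ℕ, 0 < N ∧ HasOrd P u (-N) ∧ HasOrd O u (-N) := by
  obtain ⟨a, ha0, haP, haO, ha⟩ := two_single hF gen hPO h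
  obtain ⟨b, hb0, hbO, hbP, hb⟩ := two_single hF gen hPO.symm (two_swap h)
  obtain ⟨π, hπ⟩ := exists_unif hF P
  obtain ⟨ρ, hρ⟩ := exists_unif hF O
  obtain ⟨m, hm, hm1, hm2⟩ := two_ord hF hbP hπ
  obtain ⟨n, hn, hn1, hn2⟩ := two_ord hF haO hρ
  have hane : a ≠ 0 := by
    rintro rfl
    exact haO (zero_mem _)
  have hbne : b ≠ 0 := by
    rintro rfl
    exact hbP (zero_mem _)
  have hP : HasOrd P (b ^ n * a ^ m) (-((m * n : ℕ) : ℤ)) := two_hasOrd hπ hm1 hm2 haP n m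
  have hO : HasOrd O (b ^ n * a ^ m) (-((m * n : ℕ) : ℤ)) := by
    have h1 := two_hasOrd hρ hn1 hn2 hbO m n
    rwa [mul_comm (a ^ m), mul_comm n m] at h1
  have hN : 0 < m * n := Nat.mul_pos hm hn
  refine ⟨b ^ n * a ^ m, mul_mem (pow_mem hb0 _) (pow_mem ha0 _), ?_, ?_, m * n, hN, hP, hO⟩
  · intro halg
    have h1 : b ^ n * a ^ m ∉ P.ring :=
      two_notMem (mul_ne_zero (pow_ne_zero _ hbne) (pow_ne_zero _ hane)) hN hP
    apply h1
    obtain ⟨c, hc⟩ := minpoly.mem_range_of_degree_eq_one QQ (b ^ n * a ^ m)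
      (IsAlgClosed.degree_eq_one_of_irreducible QQ (minpoly.irreducible halg.isIntegral))
    rw [← hc]
    exact P.const_mem c
  · intro v hvP hvO
    exact mul_mem (pow_mem (hb v hvP) _) (pow_mem (ha v hvO) _)

/-- a rational number `t ≠ 0` for which `1 - t / u` is not a square -/
theorem exists_nonsquare {F : Type} [Field F] [Algebra QQ F] (hF : IsCurve QQ F) {u : F}
    (hu : Transcendental QQ u) : ∃ t : ℚ, t ≠ 0 ∧ ∀ s : F, s ^ 2 ≠ 1 - algebraMap QQ F t / u := by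
  have hfin := (finite_crit hF hu).preimage
    (f := fun t : ℚ => (t : QQ)) (Rat.cast_injective.injOn)
  obtain ⟨t, ht⟩ := (hfin.union (Set.finite_singleton 0)).infinite_compl.nonempty
  rw [Set.mem_compl_iff, Set.mem_union, not_or, Set.mem_singleton_iff] at ht
  obtain ⟨ht1, ht0⟩ := ht
  refine ⟨t, ht0, fun s hs => ?_⟩
  obtain ⟨v, hv⟩ := exists_place hu (t : QQ)
  have htQ : (t : QQ) ≠ 0 := by exact_mod_cast ht0
  have hunif : IsUnif v (u - algebraMap QQ F t) := by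
    by_contra hn
    exact ht1 ⟨v, hv, hn⟩
  have hu0 : u ≠ 0 := by
    rintro rfl
    exact hu isAlgebraic_zero
  have hinv := hv.inv htQ
  have h1 : s ^ 2 = (u - algebraMap QQ F t) * u⁻¹ := by
    rw [hs]
    field_simp
  have h2 : v.Vanishes (s ^ 2) := by
    rw [h1]
    exact Place.Vanishes.mul v hv hinv.mem
  have h3 : v.Vanishes s := v.vanishes_of_pow h2
  have h4 := hunif.2.2 s h3
  have h5 : u⁻¹ = s * (s / (u - algebraMap QQ F t)) := by
    have h6 := hunif.1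
    rw [← mul_div_assoc, ← pow_two, h1]
    field_simp
  have h6 : v.Vanishes u⁻¹ := by
    rw [h5]
    exact Place.Vanishes.mul v h3 h4
  exact inv_ne_zero htQ (hinv.unique (Place.at_zero_iff.2 h6))

end Pool.Agent.Dess4
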